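import Mathlib

/-!
# Packing the complement of two disks by dyadic disks
-/

set_option autoImplicit false

noncomputable section

namespace Pool.Agent.Helper89.RMax

open MeasureTheory Metric

/-- The complement, in the unit disk, of the two disks of radius `1/2` with centres `± 1/2` can be
filled, up to any `ε`, by finitely many disjoint disks with radii `2^{-i}`. -/
theorem packing (ε : ℝ) (hε : 0 < ε) : ∃ J : Finset (ℂ × ℕ),
    (∀ a ∈ J, 1 ≤ a.2 ∧ ‖a.1‖ + (1 / 2 : ℝ) ^ a.2 ≤ 1 ∧ 1 / 2 + (1 / 2 : ℝ) ^ a.2 ≤ ‖a.1 - 1 / 2‖ ∧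
      1 / 2 + (1 / 2 : ℝ) ^ a.2 ≤ ‖a.1 + 1 / 2‖) ∧
    (∀ a ∈ J, ∀ b ∈ J, a ≠ b → (1 / 2 : ℝ) ^ a.2 + (1 / 2 : ℝ) ^ b.2 ≤ ‖a.1 - b.1‖) ∧
    1 / 2 - ε ≤ ∑ a ∈ J, ((1 / 2 : ℝ) ^ a.2) ^ 2 := by
  classical
  set t : Set (ℂ × ℕ) := {a | 1 ≤ a.2 ∧ ‖a.1‖ + (1 / 2 : ℝ) ^ a.2 ≤ 1 ∧
    1 / 2 + (1 / 2 : ℝ) ^ a.2 ≤ ‖a.1 - 1 / 2‖ ∧ 1 / 2 + (1 / 2 : ℝ) ^ a.2 ≤ ‖a.1 + 1 / 2‖} with ht
  set U : Set ℂ := {x | ‖x‖ < 1 ∧ 1 / 2 < ‖x - 1 / 2‖ ∧ 1 / 2 < ‖x + 1 / 2‖} with hU
  have hpos : ∀ a : ℂ × ℕ, (0 : ℝ) < (1 / 2) ^ a.2 := fun a => by positivity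
  obtain ⟨u, hut, huc, hud, hcov⟩ := Vitali.exists_disjoint_covering_ae (volume : Measure ℂ) U t 9
    (fun a => (1 / 2 : ℝ) ^ a.2) (fun a => a.1) (fun a => closedBall a.1 ((1 / 2 : ℝ) ^ a.2))
    (fun a _ => le_refl _) (fun a _ => by
      rw [Complex.volume_closedBall, Complex.volume_closedBall,
        ENNReal.ofReal_mul (by norm_num : (0 : ℝ) ≤ 3), mul_pow]
      rw [show (ENNReal.ofReal 3) ^ 2 = ((9 : NNReal) : ENNReal) by
        rw [← ENNReal.ofReal_pow (by norm_num)]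
        norm_num]
      rw [mul_assoc])
    (fun a _ => (nonempty_ball.2 (hpos a)).mono ball_subset_interior_closedBall)
    (fun a _ => isClosed_closedBall) (fun x hx δ hδ => by
      obtain ⟨h1, h2, h3⟩ := hx
      have hm : 0 < min δ (min (1 - ‖x‖) (min (‖x - 1 / 2‖ - 1 / 2) (‖x + 1 / 2‖ - 1 / 2))) := by
        refine lt_min hδ (lt_min (by linarith) (lt_min (by linarith) (by linarith)))
      obtain ⟨i, hi⟩ := exists_pow_lt_of_lt_one hm (by norm_num : (1 / 2 : ℝ) < 1)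
      have hi2 : (1 / 2 : ℝ) ^ (i + 1) ≤ (1 / 2 : ℝ) ^ i := by
        rw [pow_succ]
        have : (0 : ℝ) < (1 / 2) ^ i := by positivity
        linarith
      have hi3 := hi2.trans hi.le
      refine ⟨(x, i + 1), ⟨by simp, ?_, ?_, ?_⟩, ?_, rfl⟩
      · have := hi3.trans ((min_le_right _ _).trans (min_le_left _ _))
        simp only
        linarith
      · have := hi3.trans ((min_le_right _ _).trans ((min_le_right _ _).trans (min_le_left _ _)))
        simp only
        linarith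
      · have := hi3.trans ((min_le_right _ _).trans ((min_le_right _ _).trans (min_le_right _ _)))
        simp only
        linarith
      · exact hi3.trans (min_le_left _ _))
  have hvol : ENNReal.ofReal Real.pi ≤ volume U + ENNReal.ofReal (Real.pi / 2) := by
    have h1 : ball (0 : ℂ) 1 ⊆ U ∪ (closedBall (1 / 2 : ℂ) (1 / 2) ∪ closedBall (-(1 / 2) : ℂ) (1 / 2)) := by
      intro x hx
      rw [mem_ball_zero_iff] at hx
      by_cases h2 : 1 / 2 < ‖x - 1 / 2‖
      · by_cases h3 : 1 / 2 < ‖x + 1 / 2‖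
        · exact Or.inl ⟨hx, h2, h3⟩
        · refine Or.inr (Or.inr ?_)
          rw [mem_closedBall_iff_norm, sub_neg_eq_add]
          exact not_lt.mp h3
      · refine Or.inr (Or.inl ?_)
        rw [mem_closedBall_iff_norm]
        exact not_lt.mp h2
    have h2 := (measure_mono (μ := volume) h1).trans ((measure_union_le _ _).trans
      (add_le_add_right (measure_union_le _ _) _))
    rw [Complex.volume_ball, Complex.volume_closedBall, Complex.volume_closedBall] at h2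
    have h3 : ENNReal.ofReal 1 ^ 2 * (NNReal.pi : ENNReal) = ENNReal.ofReal Real.pi := by
      rw [← ENNReal.ofReal_pow (by norm_num), ← NNReal.coe_real_pi, ENNReal.ofReal_coe_nnreal]
      simp
    have h4 : ENNReal.ofReal (1 / 2) ^ 2 * (NNReal.pi : ENNReal) = ENNReal.ofReal (Real.pi / 4) := by
      rw [← ENNReal.ofReal_pow (by norm_num), ← ENNReal.ofReal_coe_nnreal, NNReal.coe_real_pi,
        ← ENNReal.ofReal_mul (by positivity)]
      congr 1
      ring
    rw [h3, h4, ← ENNReal.ofReal_add (by positivity) (by positivity)] at h2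
    refine h2.trans (le_of_eq ?_)
    congr 2
    ring
  have hsum : volume U ≤ ∑' a : u, ENNReal.ofReal (((1 / 2 : ℝ) ^ a.1.2) ^ 2 * Real.pi) := by
    have h1 : volume U ≤ volume (⋃ a ∈ u, closedBall a.1 ((1 / 2 : ℝ) ^ a.2)) := by
      calc volume U ≤ volume (U \ (⋃ a ∈ u, closedBall a.1 ((1 / 2 : ℝ) ^ a.2)) ∪
            (⋃ a ∈ u, closedBall a.1 ((1 / 2 : ℝ) ^ a.2))) := by
            apply measure_mono
            intro x hx
            by_cases h : x ∈ (⋃ a ∈ u, closedBall a.1 ((1 / 2 : ℝ) ^ a.2))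
            · exact Or.inr h
            · exact Or.inl ⟨hx, h⟩
        _ ≤ _ := measure_union_le _ _
        _ = _ := by rw [hcov, zero_add]
    refine h1.trans ((measure_biUnion_le _ huc _).trans (le_of_eq ?_))
    congr 1
    funext a
    rw [Complex.volume_closedBall, ← ENNReal.ofReal_pow (hpos a).le, ← ENNReal.ofReal_coe_nnreal,
      NNReal.coe_real_pi, ← ENNReal.ofReal_mul (by positivity)]
  have hJ : ∃ J : Finset u, 1 / 2 - ε ≤ ∑ a ∈ J, ((1 / 2 : ℝ) ^ a.1.2) ^ 2 := by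
    by_contra hcon
    push Not at hcon
    have h0 := hcon ∅
    rw [Finset.sum_empty] at h0
    have h1 : ∑' a : u, ENNReal.ofReal (((1 / 2 : ℝ) ^ a.1.2) ^ 2 * Real.pi) ≤
        ENNReal.ofReal ((1 / 2 - ε) * Real.pi) := by
      rw [ENNReal.tsum_eq_iSup_sum]
      refine iSup_le fun J => ?_
      rw [← ENNReal.ofReal_sum_of_nonneg (fun a _ => by positivity), ← Finset.sum_mul]
      exact ENNReal.ofReal_le_ofReal (mul_le_mul_of_nonneg_right (hcon J).le Real.pi_pos.le)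
    have h2 := hvol.trans (add_le_add_left (hsum.trans h1) _)
    rw [← ENNReal.ofReal_add (by positivity) (by positivity),
      ENNReal.ofReal_le_ofReal_iff (by positivity)] at h2
    have := mul_pos hε Real.pi_pos
    linarith
  obtain ⟨J, hJ⟩ := hJ
  refine ⟨J.map (Function.Embedding.subtype _), ?_, ?_, ?_⟩
  · intro a ha
    rw [Finset.mem_map] at ha
    obtain ⟨b, _, rfl⟩ := ha
    exact hut b.2
  · intro a ha b hb hab
    rw [Finset.mem_map] at ha hb
    obtain ⟨a, _, rfl⟩ := ha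
    obtain ⟨b, _, rfl⟩ := hb
    have h1 := hud a.2 b.2 hab
    have h2 := (disjoint_closedBall_closedBall_iff (hpos a).le (hpos b).le).mp h1
    rw [dist_eq_norm] at h2
    exact h2.le
  · rw [Finset.sum_map]
    exact hJ

end Pool.Agent.Helper89.RMax
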