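import Mathlib

/-!
# Real singular cohomology, products of degree one classes, and the angle class

Everything is for singular cochains with real coefficients. A singular `n`-simplex of `X` is a
continuous map from the standard simplex `Simp n` to `X`, an `n`-cochain is a real function on the
singular `n`-simplices, and `dif` is the usual coboundary.
-/

set_option autoImplicit false

noncomputable section

namespace Pool.Agent.Helper89.RMax

/-- The standard topological `n`-simplex. -/
abbrev Simp (n : ℕ) : Type := stdSimplex ℝ (Fin (n + 1))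

/-- The map of standard simplices induced by a map of vertices. -/
def smap {k n : ℕ} (f : Fin (k + 1) → Fin (n + 1)) : C(Simp k, Simp n) :=
  ⟨stdSimplex.map f, stdSimplex.continuous_map _⟩

/-- The inclusion of the `i`-th face of the standard `(n+1)`-simplex. -/
def face {n : ℕ} (i : Fin (n + 2)) : C(Simp n, Simp (n + 1)) := smap i.succAbove

/-- The edge of the standard simplex joining two vertices. -/
def edgeMap {n : ℕ} (p q : Fin (n + 1)) : C(Simp 1, Simp n) := smap ![p, q]

/-- The vertices of the standard simplex. -/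
def vtx (n : ℕ) : Fin (n + 1) → Simp n := stdSimplex.vertex

/-- Real singular `n`-cochains of `X`. -/
abbrev Coch (X : Type) [TopologicalSpace X] (n : ℕ) : Type := C(Simp n, X) → ℝ

section Cochains

variable {X Y : Type} [TopologicalSpace X] [TopologicalSpace Y]

/-- The singular coboundary. -/
def dif (n : ℕ) : Coch X n →ₗ[ℝ] Coch X (n + 1) where
  toFun c σ := ∑ i : Fin (n + 2), (-1 : ℝ) ^ (i : ℕ) * c (σ.comp (face i))
  map_add' c c' := by
    funext σ
    simp [mul_add, Finset.sum_add_distrib]
  map_smul' a c := by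
    funext σ
    simp only [Pi.smul_apply, smul_eq_mul, RingHom.id_apply, Finset.mul_sum]
    refine Finset.sum_congr rfl fun i _ => ?_
    ring

/-- The real singular `n`-cocycles. -/
def cocs (X : Type) [TopologicalSpace X] (n : ℕ) : Submodule ℝ (Coch X n) :=
  LinearMap.ker (dif n)

/-- The real singular `n`-coboundaries. -/
def cobs (X : Type) [TopologicalSpace X] : (n : ℕ) → Submodule ℝ (Coch X n)
  | 0 => ⊥
  | n + 1 => LinearMap.range (dif n)

/-- Real singular cohomology `Hⁿ(X; ℝ)`: cocycles modulo coboundaries. -/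
abbrev Coho (X : Type) [TopologicalSpace X] (n : ℕ) : Type :=
  cocs X n ⧸ (cobs X n).comap (cocs X n).subtype

/-- The pullback of cochains along a continuous map. -/
def pullCoch (f : C(X, Y)) (n : ℕ) : Coch Y n →ₗ[ℝ] Coch X n where
  toFun c σ := c (f.comp σ)
  map_add' _ _ := rfl
  map_smul' _ _ := rfl

lemma dif_pullCoch (f : C(X, Y)) (n : ℕ) (c : Coch Y n) :
    dif n (pullCoch f n c) = pullCoch f (n + 1) (dif n c) := rfl

/-- The pullback of cocycles. -/
def pullCocs (f : C(X, Y)) (n : ℕ) : cocs Y n →ₗ[ℝ] cocs X n :=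
  (pullCoch f n).restrict (fun c hc => by
    have hc' : dif n c = 0 := hc
    change dif n (pullCoch f n c) = 0
    rw [dif_pullCoch, hc', map_zero])

lemma pullCoch_mem_cobs (f : C(X, Y)) (n : ℕ) {c : Coch Y n} (hc : c ∈ cobs Y n) :
    pullCoch f n c ∈ cobs X n := by
  cases n with
  | zero =>
    have hc' : c = 0 := hc
    subst hc'
    rw [map_zero]
    exact Submodule.zero_mem _
  | succ n =>
    obtain ⟨g, rfl⟩ := hc
    exact ⟨pullCoch f n g, rfl⟩

lemma comap_cobs_le (f : C(X, Y)) (n : ℕ) : (cobs Y n).comap (cocs Y n).subtype ≤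
    ((cobs X n).comap (cocs X n).subtype).comap (pullCocs f n) :=
  fun _ hc => pullCoch_mem_cobs f n hc

/-- The induced map `f* : Hⁿ(Y; ℝ) → Hⁿ(X; ℝ)`. -/
def pull (f : C(X, Y)) (n : ℕ) : Coho Y n →ₗ[ℝ] Coho X n :=
  Submodule.mapQ _ _ (pullCocs f n) (comap_cobs_le f n)

end Cochains

section Products

variable {X : Type} [TopologicalSpace X]

/-- The cup product of `d` cochains of degree one: the value on a singular `d`-simplex is the
product over `i` of the value of the `i`-th cochain on the edge from vertex `i` to vertex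
`i + 1`. -/
def prodCoch {d : ℕ} (θ : Fin d → Coch X 1) : Coch X d :=
  fun σ => ∏ i : Fin d, θ i (σ.comp (edgeMap i.castSucc i.succ))

lemma smap_comp {k l n : ℕ} (g : Fin (l + 1) → Fin (n + 1)) (f : Fin (k + 1) → Fin (l + 1)) :
    (smap g).comp (smap f) = smap (g ∘ f) := by
  ext1 t
  exact stdSimplex.map_comp_apply _ _ _

lemma dif_apply {n : ℕ} (c : Coch X n) (σ : C(Simp (n + 1), X)) :
    dif n c σ = ∑ i : Fin (n + 2), (-1 : ℝ) ^ (i : ℕ) * c (σ.comp (face i)) := rfl

/-- the cup product of a 1-cochain and an `n`-cochain -/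
def cup1 {n : ℕ} (α : Coch X 1) (β : Coch X n) : Coch X (n + 1) :=
  fun σ => α (σ.comp (edgeMap 0 1)) * β (σ.comp (face 0))

lemma comp_face_edge {n : ℕ} (σ : C(Simp (n + 1), X)) (i : Fin (n + 2)) (p q : Fin (n + 1)) :
    (σ.comp (face i)).comp (edgeMap p q) = σ.comp (edgeMap (i.succAbove p) (i.succAbove q)) := by
  rw [ContinuousMap.comp_assoc, face, edgeMap, smap_comp, edgeMap]
  congr 2
  funext j
  fin_cases j <;> rfl

lemma comp_face_face {n : ℕ} (σ : C(Simp (n + 2), X)) (i : Fin (n + 2)) :
    (σ.comp (face i.succ)).comp (face 0) = (σ.comp (face 0)).comp (face i) := by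
  rw [ContinuousMap.comp_assoc, ContinuousMap.comp_assoc, face, face, face, face,
    smap_comp, smap_comp]
  congr 2
  funext j
  simp only [Function.comp_apply, Fin.succAbove_zero]
  exact Fin.succ_succAbove_succ i j

lemma dif_one_apply (α : Coch X 1) (σ : C(Simp 2, X)) :
    dif 1 α σ = α (σ.comp (edgeMap 1 2)) - α (σ.comp (edgeMap 0 2)) + α (σ.comp (edgeMap 0 1)) := by
  rw [dif_apply, Fin.sum_univ_three]
  have h : ∀ (i : Fin 3), face i = edgeMap (n := 2) (i.succAbove 0) (i.succAbove 1) := by
    intro i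
    rw [face, edgeMap]
    congr 1
    funext j
    fin_cases j <;> rfl
  rw [h 0, h 1, h 2]
  have e0 : (0 : Fin 3).succAbove 0 = 1 := rfl
  have e1 : (0 : Fin 3).succAbove 1 = 2 := rfl
  have e2 : (1 : Fin 3).succAbove 0 = 0 := rfl
  have e3 : (1 : Fin 3).succAbove 1 = 2 := rfl
  have e4 : (2 : Fin 3).succAbove 0 = 0 := rfl
  have e5 : (2 : Fin 3).succAbove 1 = 1 := rfl
  rw [e0, e1, e2, e3, e4, e5]
  simp
  ring

lemma dif_cup1 {n : ℕ} (α : Coch X 1) (hα : dif 1 α = 0) (β : Coch X n) :
    dif (n + 1) (cup1 α β) = - cup1 α (dif n β) := by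
  funext σ
  rw [dif_apply, Fin.sum_univ_succ, Fin.sum_univ_succ]
  simp only [cup1, Pi.neg_apply]
  have h2 : ∀ i : Fin (n + 1), (σ.comp (face i.succ.succ)).comp (edgeMap 0 1)
      = σ.comp (edgeMap 0 1) := by
    intro i
    rw [comp_face_edge]
    congr 2
  have h0 : (σ.comp (face 0)).comp (edgeMap 0 1) = σ.comp (edgeMap 1 2) := by
    rw [comp_face_edge]
    congr 2
  have h1 : (σ.comp (face (Fin.succ 0))).comp (edgeMap 0 1) = σ.comp (edgeMap 0 2) := by
    rw [comp_face_edge]
    congr 2
  have hα' := congrFun hα (σ.comp (smap (fun j : Fin 3 => (⟨j, by omega⟩ : Fin (n + 3)))))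
  rw [dif_one_apply] at hα'
  have hc : ∀ p q : Fin 3, (σ.comp (smap (fun j : Fin 3 => (⟨j, by omega⟩ : Fin (n + 3))))).comp
      (edgeMap p q) = σ.comp (edgeMap (⟨p, by omega⟩ : Fin (n + 3)) ⟨q, by omega⟩) := by
    intro p q
    rw [ContinuousMap.comp_assoc, edgeMap, smap_comp, edgeMap]
    congr 2
    funext j
    fin_cases j <;> rfl
  rw [hc, hc, hc] at hα'
  simp only [Pi.zero_apply] at hα'
  have e0 : (⟨((0 : Fin 3) : ℕ), by omega⟩ : Fin (n + 3)) = 0 := rfl
  have e1 : (⟨((1 : Fin 3) : ℕ), by omega⟩ : Fin (n + 3)) = 1 := by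
    apply Fin.ext; simp
  have e2 : (⟨((2 : Fin 3) : ℕ), by omega⟩ : Fin (n + 3)) = 2 := by
    apply Fin.ext
    simp only [Fin.coe_ofNat_eq_mod]
    exact (Nat.mod_eq_of_lt (by omega)).symm
  rw [e0, e1, e2] at hα'
  have hR : dif n β (σ.comp (face 0)) = (-1 : ℝ) ^ ((0 : Fin (n + 2)) : ℕ) *
      β ((σ.comp (face 0)).comp (face 0)) + ∑ i : Fin (n + 1), (-1 : ℝ) ^ (i.succ : ℕ) *
      β ((σ.comp (face 0)).comp (face i.succ)) := by
    rw [dif_apply, Fin.sum_univ_succ]
  rw [hR, h0, h1, comp_face_face σ 0]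
  simp_rw [h2, comp_face_face]
  rw [mul_add, Finset.mul_sum]
  have h3 : ∑ i : Fin (n + 1), (-1 : ℝ) ^ (i.succ.succ : ℕ) *
      (α (σ.comp (edgeMap 0 1)) * β ((σ.comp (face 0)).comp (face i.succ))) =
      - ∑ i : Fin (n + 1), α (σ.comp (edgeMap 0 1)) * ((-1 : ℝ) ^ (i.succ : ℕ) *
      β ((σ.comp (face 0)).comp (face i.succ))) := by
    rw [← Finset.sum_neg_distrib]
    refine Finset.sum_congr rfl fun i _ => ?_
    rw [Fin.val_succ, Fin.val_succ, pow_succ, pow_succ]
    ring
  rw [h3]
  simp only [Fin.val_zero, pow_zero, Fin.val_succ, zero_add, pow_one, one_mul]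
  linear_combination β ((σ.comp (face 0)).comp (face 0)) * hα'

lemma prodCoch_succ {d : ℕ} (θ : Fin (d + 1) → Coch X 1) :
    prodCoch θ = cup1 (θ 0) (prodCoch (fun i => θ i.succ)) := by
  funext σ
  simp only [prodCoch, cup1]
  rw [Fin.prod_univ_succ]
  congr 1
  refine Finset.prod_congr rfl fun i _ => ?_
  rw [comp_face_edge]
  rfl

lemma dif_prodCoch {d : ℕ} (θ : Fin d → Coch X 1) (hθ : ∀ i, dif 1 (θ i) = 0) :
    dif d (prodCoch θ) = 0 := by
  induction d with
  | zero =>
    funext σ
    rw [dif_apply]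
    simp [prodCoch, Fin.sum_univ_two]
  | succ d ih =>
    rw [prodCoch_succ, dif_cup1 _ (hθ 0), ih _ fun i => hθ _]
    funext σ
    simp [cup1]

/-- The cup product of `d` cohomology classes of degree one given by cocycles `θ 0, …, θ (d-1)`:
the class of the cocycle whose value on a singular `d`-simplex is the product of the values
of the `θ i` on the edges from vertex `i` to vertex `i + 1`. -/
def cupProd {d : ℕ} (θ : Fin d → cocs X 1) : Coho X d :=
  Submodule.Quotient.mk ⟨prodCoch (fun i => (θ i).1), dif_prodCoch _ (fun i => (θ i).2)⟩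

end Products

section Angle

instance simp_contractible (n : ℕ) : ContractibleSpace (Simp n) :=
  (convex_stdSimplex ℝ (Fin (n + 1))).contractibleSpace ⟨_, single_mem_stdSimplex ℝ 0⟩

lemma exists_lift {A : Type} [TopologicalSpace A] [ContractibleSpace A] (f : C(A, Circle)) :
    ∃ L : C(A, ℝ), ∀ a, Circle.exp (L a) = f a := by
  obtain ⟨x0, ⟨H⟩⟩ := id_nullhomotopic A
  obtain ⟨e0, he0⟩ := Circle.exp_surjective (f x0)
  let K : C(unitInterval × A, Circle) := f.comp H.symm.toContinuousMap
  have hK : ∀ a, K (0, a) = Circle.exp ((ContinuousMap.const A e0) a) := by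
    intro a
    simp only [K, ContinuousMap.comp_apply, ContinuousMap.const_apply, he0]
    congr 1
    exact H.symm.apply_zero a
  let L := Circle.isCoveringMap_exp.liftHomotopy K (ContinuousMap.const A e0) hK
  refine ⟨⟨fun a => L (1, a), by fun_prop⟩, fun a => ?_⟩
  have h1 := congrFun (Circle.isCoveringMap_exp.liftHomotopy_lifts K (ContinuousMap.const A e0) hK)
    (1, a)
  simp only [Function.comp_apply] at h1
  change Circle.exp (L (1, a)) = f a
  rw [h1]
  simp only [K, ContinuousMap.comp_apply]
  congr 1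
  exact H.symm.apply_one a

lemma lift_diff {A : Type} [TopologicalSpace A] [PreconnectedSpace A] {L L' : A → ℝ}
    (hL : Continuous L) (hL' : Continuous L') (h : ∀ a, Circle.exp (L a) = Circle.exp (L' a))
    (a b : A) : L b - L a = L' b - L' a := by
  have h1 : (fun x => L x) = (fun x => L' x + (L a - L' a)) := by
    refine Circle.isCoveringMap_exp.eq_of_comp_eq hL (hL'.add continuous_const) ?_ a (by ring)
    funext x
    simp only [Function.comp_apply]
    rw [Circle.exp_add, Circle.exp_sub, h a, div_self', mul_one, h x]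
  have := congrFun h1 b
  rw [this]; ring

/-- The total change of the angle, in full turns, along a path `γ` in the unit circle (parametrised
by the standard 1-simplex): `(L(v₁) - L(v₀)) / 2π` for any continuous real function `L` with
`exp(i L(t)) = γ(t)` for all `t`. Such functions exist by `exists_lift`, and the value does not
depend on the choice by `lift_diff`. -/
def turn (γ : C(Simp 1, Circle)) : ℝ :=
  (Classical.choose (exists_lift γ) (vtx 1 1) - Classical.choose (exists_lift γ) (vtx 1 0)) /
    (2 * Real.pi)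

lemma turn_eq (γ : C(Simp 1, Circle)) {L : Simp 1 → ℝ} (hL : Continuous L)
    (h : ∀ t, Circle.exp (L t) = γ t) : turn γ = (L (vtx 1 1) - L (vtx 1 0)) / (2 * Real.pi) := by
  rw [turn]
  congr 1
  refine lift_diff (ContinuousMap.continuous _) hL (fun a => ?_) _ _
  rw [h a]
  exact Classical.choose_spec (exists_lift γ) a

variable {X : Type} [TopologicalSpace X]

/-- The singular 1-cochain of a map `f` to the circle: its value on a path `σ` is the total change,
in full turns, of the angle of `f` along `σ`. -/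
def angle (f : C(X, Circle)) : Coch X 1 := fun σ => turn (f.comp σ)

lemma dif_angle (f : C(X, Circle)) : dif 1 (angle f) = 0 := by
  funext σ
  rw [dif_one_apply]
  obtain ⟨L, hL⟩ := exists_lift (f.comp σ)
  have h : ∀ p q : Fin 3, angle f (σ.comp (edgeMap p q)) =
      (L (vtx 2 q) - L (vtx 2 p)) / (2 * Real.pi) := by
    intro p q
    have h1 : (edgeMap (n := 2) p q) (vtx 1 1) = vtx 2 q := stdSimplex.map_vertex _ _
    have h0 : (edgeMap (n := 2) p q) (vtx 1 0) = vtx 2 p := stdSimplex.map_vertex _ _
    rw [angle, turn_eq (L := fun t => L (edgeMap p q t)) _ (by fun_prop) (fun t => hL _), h1, h0]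
  rw [h, h, h]
  simp only [Pi.zero_apply]
  ring

/-- The pullback of the normalised angle class `dθ/2π` of the circle under a map `f` to the circle,
as a cocycle: its value on a path is the total change of the angle of `f` in full turns. -/
def angleCoc (f : C(X, Circle)) : cocs X 1 := ⟨angle f, dif_angle f⟩

end Angle

end Pool.Agent.Helper89.RMax
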