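import Mathlib
import Pool.Agent.Helper89.RMax.Coho

/-!
# Configurations of disks, ordered forests, and the radius `r_max`
-/

set_option autoImplicit false

noncomputable section

namespace Pool.Agent.Helper89.RMax

/-- `Conf n`: the configurations of `n` distinct points in the open unit disk. -/
abbrev Conf (n : ℕ) : Type :=
  {x : Fin n → ℂ // (∀ a, ‖x a‖ < 1) ∧ ∀ a b, a ≠ b → x a ≠ x b}

/-- `DiskConf n r`: the centres of `n` non-overlapping disks of radius `r` in the closed unit
disk. -/
abbrev DiskConf (n : ℕ) (r : ℝ) : Type :=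
  {x : Fin n → ℂ // (∀ a, ‖x a‖ ≤ 1 - r) ∧ ∀ a b, a ≠ b → 2 * r ≤ ‖x a - x b‖}

/-- The inclusion of `DiskConf n r` in `Conf n`, for `r > 0`. -/
def incl (n : ℕ) {r : ℝ} (hr : 0 < r) : C(DiskConf n r, Conf n) where
  toFun x := ⟨x.1, fun a => (x.2.1 a).trans_lt (by linarith), fun a b hab h => by
    have := x.2.2 a b hab
    rw [h, sub_self, norm_zero] at this
    linarith⟩
  continuous_toFun := by fun_prop

/-- Pairs `a < b` of labels. -/
abbrev Edge (n : ℕ) : Type := {e : Fin n × Fin n // e.1 < e.2}

/-- The direction `z / |z|` of a nonzero complex number. -/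
def unit (z : ℂ) (hz : z ≠ 0) : Circle :=
  ⟨z / (‖z‖ : ℂ), mem_sphere_zero_iff_norm.mpr (by
    rw [norm_div, Complex.norm_real, norm_norm, div_self (norm_ne_zero_iff.mpr hz)])⟩

lemma continuous_unit {X : Type} [TopologicalSpace X] {g : X → ℂ} (hg : Continuous g)
    (h : ∀ x, g x ≠ 0) : Continuous fun x => unit (g x) (h x) := by
  refine Continuous.subtype_mk (p := fun z => z ∈ Submonoid.unitSphere ℂ) ?_ _
  exact hg.div (by fun_prop) (fun x => by exact_mod_cast norm_ne_zero_iff.mpr (h x))

/-- The map `x ↦ (x_b - x_a) / |x_b - x_a|` of `Conf n` to the unit circle, for `a < b`. -/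
def dir {n : ℕ} (e : Edge n) : C(Conf n, Circle) where
  toFun x := unit (x.1 e.1.2 - x.1 e.1.1) (sub_ne_zero.mpr (x.2.2 _ _ e.2.ne'))
  continuous_toFun := continuous_unit
    (((continuous_apply e.1.2).comp continuous_subtype_val).sub
      ((continuous_apply e.1.1).comp continuous_subtype_val)) _

/-- The class `ω_{ab}` of `Conf n` (as a cocycle): the pullback of the normalised angle class
of the circle under `dir`. -/
def omega {n : ℕ} (e : Edge n) : cocs (Conf n) 1 := angleCoc (dir e)

/-- An ordered forest: a forest on `{0, …, n-1}` in which every vertex has at most one neighbour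
with a smaller label. -/
def IsOrderedForest {n : ℕ} (G : SimpleGraph (Fin n)) : Prop :=
  G.IsAcyclic ∧ ∀ a a' b, G.Adj a b → G.Adj a' b → a < b → a' < b → a = a'

/-- The shape of a graph: the multiset of the sizes of its components with at least two vertices. -/
def shape {n : ℕ} (G : SimpleGraph (Fin n)) : Multiset ℕ :=
  ((@Finset.univ G.ConnectedComponent (Fintype.ofFinite _)).val.map
    (fun c => Nat.card c.supp)).filter (2 ≤ ·)

/-- The space `H^m(Conf_n)`, in degree `d`: the span of the classes `ω_G`, where `G` runs over the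
ordered forests of shape `m` and `ω_G` is the cup product of the `ω_{ab}` over the edges of `G`
(the edges listed without repetition in any order, which only affects the sign). -/
def shapeSpace (m : Multiset ℕ) (n d : ℕ) : Submodule ℝ (Coho (Conf n) d) :=
  Submodule.span ℝ {z | ∃ G : SimpleGraph (Fin n), IsOrderedForest G ∧ shape G = m ∧
    ∃ e : Fin d → Edge n, Function.Injective e ∧
      (∀ p : Edge n, (∃ i, e i = p) ↔ G.Adj p.1.1 p.1.2) ∧
      z = cupProd (fun i => omega (e i))}

/-- The radii `r > 0` for which the restriction map `H^m(Conf_n) → H^*(Conf_{n,r})` is not zero,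
where `n` is the sum of the `m_i`. The degree of the classes `ω_G` with `G` of shape `m` is the sum
of the `m_i - 1`. -/
def goodRadii (m : Multiset ℕ) : Set ℝ :=
  {r : ℝ | ∃ hr : 0 < r, ∃ z ∈ shapeSpace m m.sum (m.map (· - 1)).sum,
    pull (incl m.sum hr) (m.map (· - 1)).sum z ≠ 0}

/-- The radius `r_max(m)`. -/
def rmax (m : Multiset ℕ) : ℝ := sSup (goodRadii m)

end Pool.Agent.Helper89.RMax
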