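import Mathlib
import Pool.Agent.Helper89.RMax.Coho

/-!
# Products of degree one cochains that are not coboundaries

The pairing of a product of one-cochains with the fundamental cycle of a torus.
-/

set_option autoImplicit false

noncomputable section

namespace Pool.Agent.Helper89.RMax

lemma smap_apply {k n : ℕ} (f : Fin (k + 1) → Fin (n + 1)) (t : Simp k) (x : Fin (n + 1)) :
    smap f t x = ∑ i, if f i = x then t i else 0 := by
  change stdSimplex.map f t x = _
  rw [stdSimplex.map_coe, FunOnFinite.linearMap_apply_apply, Finset.sum_filter]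

/-- the coordinates of the simplex of the cube attached to a permutation -/
def cubeMap {d : ℕ} (π : Equiv.Perm (Fin d)) : C(Simp d, Fin d → ℝ) where
  toFun t j := ∑ l : Fin (d + 1), if (π.symm j).castSucc < l then t l else 0
  continuous_toFun := by
    apply continuous_pi
    intro j
    apply continuous_finsetSum
    intro l _
    split_ifs
    · exact (continuous_apply l).comp continuous_subtype_val
    · exact continuous_const

lemma cubeMap_apply {d : ℕ} (π : Equiv.Perm (Fin d)) (t : Simp d) (j : Fin d) :
    cubeMap π t j = ∑ l : Fin (d + 1), if (π.symm j).castSucc < l then t l else 0 := rfl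

lemma cubeMap_smap {d k : ℕ} (π : Equiv.Perm (Fin d)) (f : Fin (k + 1) → Fin (d + 1)) (t : Simp k)
    (j : Fin d) :
    cubeMap π (smap f t) j = ∑ i : Fin (k + 1), if (π.symm j).castSucc < f i then t i else 0 := by
  rw [cubeMap_apply]
  simp_rw [smap_apply]
  have : ∀ l : Fin (d + 1), (if (π.symm j).castSucc < l then ∑ i, (if f i = l then t i else 0) else 0)
      = ∑ i, (if f i = l then (if (π.symm j).castSucc < f i then t i else 0) else 0) := by
    intro l
    split_ifs with h
    · refine Finset.sum_congr rfl fun i _ => ?_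
      split_ifs with h1 h2
      · rfl
      · exact absurd (h1 ▸ h) h2
      · rfl
    · rw [Finset.sum_eq_zero]
      intro i _
      split_ifs with h1 h2
      · exact absurd (h1 ▸ h2) h
      · rfl
      · rfl
  simp_rw [this]
  rw [Finset.sum_comm]
  refine Finset.sum_congr rfl fun i _ => ?_
  simp

lemma cubeMap_edge {d : ℕ} (π : Equiv.Perm (Fin d)) (i : Fin d) (t : Simp 1) :
    cubeMap π (edgeMap i.castSucc i.succ t) =
      fun j => (if π.symm j < i then 1 else 0) + if j = π i then t 1 else 0 := by
  funext j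
  rw [edgeMap, cubeMap_smap, Fin.sum_univ_two]
  have ht : t 0 + t 1 = 1 := by
    have := t.2.2
    rw [Fin.sum_univ_two] at this
    exact this
  simp only [Matrix.cons_val_zero, Matrix.cons_val_one, Fin.castSucc_lt_castSucc_iff,
    Fin.castSucc_lt_succ_iff]
  rcases lt_trichotomy (π.symm j) i with h | h | h
  · have h1 : j ≠ π i := by
      rintro rfl
      simp at h
    rw [if_pos h, if_pos h.le, if_pos h, if_neg h1]
    linarith
  · have h1 : j = π i := by rw [← h]; simp
    have h2 : ¬ (π.symm j < i) := by rw [h]; exact lt_irrefl _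
    rw [if_neg h2, if_pos h.le, if_neg h2, if_pos h1]
  · have h1 : j ≠ π i := by
      rintro rfl
      simp at h
    rw [if_neg h.not_gt, if_neg h.not_ge, if_neg h.not_gt, if_neg h1]

lemma cubeMap_inner {n : ℕ} (π : Equiv.Perm (Fin (n + 1))) (k : Fin n) (t : Simp n) :
    cubeMap (π * Equiv.swap k.castSucc k.succ) (face k.succ.castSucc t) =
      cubeMap π (face k.succ.castSucc t) := by
  funext j
  rw [face, cubeMap_smap, cubeMap_smap]
  refine Finset.sum_congr rfl fun i _ => ?_
  congr 1
  have hs : (π * Equiv.swap k.castSucc k.succ).symm j = Equiv.swap k.castSucc k.succ (π.symm j) := by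
    rw [Equiv.symm_apply_eq]
    simp
  rw [hs]
  set p := π.symm j
  have hne : (k.succ.castSucc).succAbove i ≠ k.succ.castSucc := Fin.succAbove_ne _ _
  set q := (k.succ.castSucc).succAbove i
  have hq : (q : ℕ) ≠ (k : ℕ) + 1 := by
    intro h
    apply hne
    apply Fin.ext
    simpa using h
  have key : (Equiv.swap k.castSucc k.succ p).castSucc < q ↔ p.castSucc < q := by
    by_cases h1 : p = k.castSucc
    · rw [h1, Equiv.swap_apply_left]
      simp only [Fin.lt_def, Fin.val_castSucc, Fin.val_succ]
      omega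
    · by_cases h2 : p = k.succ
      · rw [h2, Equiv.swap_apply_right]
        simp only [Fin.lt_def, Fin.val_castSucc, Fin.val_succ]
        omega
      · rw [Equiv.swap_apply_of_ne_of_ne h1 h2]
  exact propext key

lemma cubeMap_outer {n : ℕ} (π : Equiv.Perm (Fin (n + 1))) (t : Simp n) :
    cubeMap π (face 0 t) =
      cubeMap (π * finRotate (n + 1)) (face (Fin.last (n + 1)) t) + Pi.single (π 0) 1 := by
  funext j
  rw [face, cubeMap_smap, Pi.add_apply, face, cubeMap_smap]
  have hs : (π * finRotate (n + 1)).symm j = (finRotate (n + 1)).symm (π.symm j) := by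
    rw [Equiv.symm_apply_eq]
    simp
  rw [hs]
  by_cases h0 : π.symm j = 0
  · have hj : j = π 0 := by rw [← h0]; simp
    rw [h0, ← hj, Pi.single_eq_same]
    have h1 : (finRotate (n + 1)).symm 0 = Fin.last n := by
      rw [Equiv.symm_apply_eq, finRotate_last]
    rw [h1]
    have h2 : ∀ i : Fin (n + 1), ¬ ((Fin.last n).castSucc < (Fin.last (n + 1)).succAbove i) := by
      intro i
      rw [Fin.succAbove_last]
      simp only [Fin.castSucc_lt_castSucc_iff, not_lt]
      exact Fin.le_last i
    have h3 : ∀ i : Fin (n + 1), ((0 : Fin (n + 1)).castSucc < (0 : Fin (n + 2)).succAbove i) := by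
      intro i
      rw [Fin.succAbove_zero]
      simp
    simp only [h2, h3, if_true, if_false, Finset.sum_const_zero, zero_add]
    exact t.2.2
  · have hj : j ≠ π 0 := by
      rintro rfl
      simp at h0
    rw [Pi.single_eq_of_ne hj, add_zero]
    refine Finset.sum_congr rfl fun i _ => ?_
    congr 1
    rw [Fin.succAbove_last, Fin.succAbove_zero]
    obtain ⟨q, hq⟩ := Fin.exists_succ_eq.mpr h0
    have h1 : (finRotate (n + 1)).symm (π.symm j) = q.castSucc := by
      rw [Equiv.symm_apply_eq, ← hq]
      apply Fin.ext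
      rw [coe_finRotate_of_ne_last]
      · simp
      · exact (Fin.castSucc_lt_last q).ne
    rw [h1, ← hq]
    apply propext
    simp only [Fin.lt_def, Fin.val_castSucc, Fin.val_succ]
    omega

variable {X : Type} [TopologicalSpace X]

/-- the singular simplex of a torus attached to a permutation -/
def torusSimplex {d : ℕ} (Φ : C(Fin d → ℝ, X)) (π : Equiv.Perm (Fin d)) : C(Simp d, X) :=
  Φ.comp (cubeMap π)

/-- The alternating sum of the torus simplices is a cycle. -/
lemma torus_cycle {n : ℕ} (Φ : C(Fin (n + 1) → ℝ, X)) (hΦ : ∀ y j, Φ (y + Pi.single j 1) = Φ y)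
    (g : Coch X n) :
    ∑ π : Equiv.Perm (Fin (n + 1)), ((Equiv.Perm.sign π : ℤ) : ℝ) * dif n g (torusSimplex Φ π) = 0 := by
  simp_rw [dif_apply, Finset.mul_sum]
  rw [Finset.sum_comm, Fin.sum_univ_succ, Fin.sum_univ_castSucc]
  have hinner : ∀ k : Fin n, ∑ π : Equiv.Perm (Fin (n + 1)), ((Equiv.Perm.sign π : ℤ) : ℝ) *
      ((-1 : ℝ) ^ ((k.castSucc.succ : Fin (n + 2)) : ℕ) *
        g ((torusSimplex Φ π).comp (face k.castSucc.succ))) = 0 := by
    intro k
    set S := ∑ π : Equiv.Perm (Fin (n + 1)), ((Equiv.Perm.sign π : ℤ) : ℝ) *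
      ((-1 : ℝ) ^ ((k.castSucc.succ : Fin (n + 2)) : ℕ) *
        g ((torusSimplex Φ π).comp (face k.castSucc.succ))) with hS
    have h1 : S = - S := by
      conv_lhs => rw [hS, ← Equiv.sum_comp (Equiv.mulRight (Equiv.swap k.castSucc k.succ))]
      rw [hS, ← Finset.sum_neg_distrib]
      refine Finset.sum_congr rfl fun π _ => ?_
      have h2 : (torusSimplex Φ (π * Equiv.swap k.castSucc k.succ)).comp (face k.castSucc.succ) =
          (torusSimplex Φ π).comp (face k.castSucc.succ) := by
        ext1 t
        change Φ (cubeMap _ (face k.succ.castSucc t)) = Φ (cubeMap _ (face k.succ.castSucc t))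
        rw [cubeMap_inner]
      rw [Equiv.coe_mulRight, h2, Equiv.Perm.sign_mul, Equiv.Perm.sign_swap]
      · simp
      · intro h
        have := congrArg Fin.val h
        simp at this
    linarith
  simp_rw [hinner]
  rw [Finset.sum_const_zero, zero_add]
  have h0 : ∑ π : Equiv.Perm (Fin (n + 1)), ((Equiv.Perm.sign π : ℤ) : ℝ) *
      ((-1 : ℝ) ^ ((0 : Fin (n + 2)) : ℕ) * g ((torusSimplex Φ π).comp (face 0))) =
      ∑ π : Equiv.Perm (Fin (n + 1)), (-1 : ℝ) ^ n * (((Equiv.Perm.sign π : ℤ) : ℝ) *
        g ((torusSimplex Φ π).comp (face (Fin.last n).succ))) := by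
    conv_rhs => rw [← Equiv.sum_comp (Equiv.mulRight (finRotate (n + 1)))]
    refine Finset.sum_congr rfl fun π _ => ?_
    have h2 : (torusSimplex Φ π).comp (face 0) =
        (torusSimplex Φ (π * finRotate (n + 1))).comp (face (Fin.last n).succ) := by
      ext1 t
      change Φ (cubeMap _ (face 0 t)) = Φ (cubeMap _ (face (Fin.last (n + 1)) t))
      rw [cubeMap_outer, hΦ]
    rw [Equiv.coe_mulRight, ← h2, Equiv.Perm.sign_mul, sign_finRotate]
    have h3 : ((-1 : ℝ) ^ n) * ((-1 : ℝ) ^ n) = 1 := by
      rw [← mul_pow]; simp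
    push_cast
    simp only [Fin.val_zero, pow_zero, one_mul]
    linear_combination (-(((Equiv.Perm.sign π : ℤ) : ℝ) *
      g ((torusSimplex Φ π).comp (face 0)))) * h3
  rw [h0, ← Finset.sum_add_distrib]
  apply Finset.sum_eq_zero
  intro π _
  simp only [Fin.val_succ, Fin.val_last]
  ring

/-- **Non-vanishing of products.** If the `i`-th of `d` one-cochains takes the value `δ_{ij}` on
every path in the `j`-th direction of a `d`-torus in `X`, the product is not a coboundary. -/
theorem prodCoch_not_mem_cobs {d : ℕ} (Φ : C(Fin d → ℝ, X)) (hΦ : ∀ y j, Φ (y + Pi.single j 1) = Φ y)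
    (θ : Fin d → Coch X 1)
    (hθ : ∀ (i j : Fin d) (σ : C(Simp 1, X)) (y : Fin d → ℝ),
      (∀ t : Simp 1, σ t = Φ (y + Pi.single j (t 1))) → θ i σ = if i = j then 1 else 0) :
    prodCoch θ ∉ cobs X d := by
  have hval : ∀ π : Equiv.Perm (Fin d), prodCoch θ (torusSimplex Φ π) = if π = 1 then 1 else 0 := by
    intro π
    have h1 : ∀ i : Fin d, θ i ((torusSimplex Φ π).comp (edgeMap i.castSucc i.succ)) =
        if i = π i then 1 else 0 := by
      intro i
      refine hθ i (π i) _ (fun j => if π.symm j < i then 1 else 0) (fun t => ?_)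
      change Φ (cubeMap π (edgeMap i.castSucc i.succ t)) = _
      rw [cubeMap_edge]
      congr 1
      funext j
      rw [Pi.add_apply, Pi.single_apply]
    rw [prodCoch]
    simp_rw [h1]
    split_ifs with h
    · subst h
      simp
    · obtain ⟨i, hi⟩ : ∃ i, i ≠ π i := by
        by_contra hcon
        push Not at hcon
        apply h
        ext1 i
        rw [← hcon i]
        rfl
      exact Finset.prod_eq_zero (Finset.mem_univ i) (if_neg hi)
  intro hmem
  cases d with
  | zero =>
    have h0 : prodCoch θ = 0 := hmem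
    have h1 := hval 1
    rw [h0] at h1
    simp at h1
  | succ n =>
    obtain ⟨g, hg⟩ := hmem
    have h1 := torus_cycle Φ hΦ g
    rw [hg] at h1
    simp_rw [hval] at h1
    rw [Finset.sum_eq_single 1] at h1
    · simp at h1
    · intro π _ hπ
      rw [if_neg hπ, mul_zero]
    · simp

end Pool.Agent.Helper89.RMax
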