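import Mathlib
import Pool.Agent.Helper89.RMax.Defs
import Pool.Agent.Helper89.RMax.Torus

/-!
# Torus families of disks of radius one in a disk of radius `R`
-/

set_option autoImplicit false

noncomputable section

namespace Pool.Agent.Helper89.RMax

/-- `t ↦ exp (2π i t)` -/
def ex (t : ℝ) : ℂ := Complex.exp ((2 * Real.pi * t : ℝ) * Complex.I)

lemma norm_ex (t : ℝ) : ‖ex t‖ = 1 := Complex.norm_exp_ofReal_mul_I _

lemma continuous_ex : Continuous ex := by
  unfold ex
  fun_prop

lemma ex_add_one (t : ℝ) : ex (t + 1) = ex t := by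
  have h : ((2 * Real.pi * (t + 1) : ℝ) : ℂ) * Complex.I =
      ((2 * Real.pi * t : ℝ) : ℂ) * Complex.I + 2 * Real.pi * Complex.I := by
    push_cast
    ring
  rw [ex, h, Complex.exp_periodic, ex]

/-- A torus family of unit disks in the disk of radius `R`, with a rooted forest: `par` is the parent
map (a root is its own parent), `rt` the root map. The centres are periodic functions of angles
indexed by the disks, the direction of `pos y v - pos y (par v)` is governed by the angle
`y v` alone. -/
structure Sys (V : Type) (R : ℝ) where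
  /-- parent -/
  par : V → V
  /-- root -/
  rt : V → V
  /-- rank -/
  rank : V → ℕ
  /-- centres -/
  pos : (V → ℝ) → V → ℂ
  rank_par : ∀ v, par v ≠ v → rank (par v) < rank v
  rt_par : ∀ v, rt (par v) = rt v
  rt_of_root : ∀ v, par v = v → rt v = v
  par_rt : ∀ v, par (rt v) = rt v
  cont : Continuous pos
  periodic : ∀ (y y' : V → ℝ), (∀ w, y' w = y w ∨ y' w = y w + 1) → pos y' = pos y
  indep : ∀ y y', (∀ v, par v ≠ v → y v = y' v) → pos y = pos y'
  norm_le : ∀ y v, ‖pos y v‖ ≤ R - 1
  sep : ∀ y v w, v ≠ w → 2 ≤ ‖pos y v - pos y w‖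
  deg : ∀ v, par v ≠ v → ∃ c : ℂ, ∀ y, ‖(pos y v - pos y (par v)) - ex (y v) * c‖ < ‖c‖

/-- The winding number of a closed path of directions that is close to `exp(2πi(a + k t)) c`. -/
lemma turn_unit (γ : Simp 1 → ℂ) (hγ : Continuous γ) (h0 : ∀ t, γ t ≠ 0)
    (hcl : γ (vtx 1 0) = γ (vtx 1 1)) (c : ℂ) (a : ℝ) (k : ℤ)
    (hc : ∀ t, ‖γ t - ex (a + k * t 1) * c‖ < ‖c‖) :
    turn ⟨fun t => unit (γ t) (h0 t), continuous_unit hγ h0⟩ = k := by
  have hc0 : c ≠ 0 := by
    rintro rfl
    have := hc (vtx 1 0)
    rw [norm_zero] at this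
    exact absurd this (norm_nonneg _).not_gt
  have he0 : ∀ t, ex t ≠ 0 := fun t h => by
    have := norm_ex t
    rw [h, norm_zero] at this
    exact zero_ne_one this
  have hcont1 : Continuous fun t : Simp 1 => t 1 := (continuous_apply 1).comp continuous_subtype_val
  let q : Simp 1 → ℂ := fun t => γ t / (ex (a + k * t 1) * c)
  have hq : Continuous q := by
    refine hγ.div ?_ (fun t => mul_ne_zero (he0 _) hc0)
    exact (continuous_ex.comp (continuous_const.add (continuous_const.mul hcont1))).mul
      continuous_const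
  have hqre : ∀ t, 0 < (q t).re := by
    intro t
    have h1 : q t = 1 + (γ t - ex (a + k * t 1) * c) / (ex (a + k * t 1) * c) := by
      simp only [q]
      rw [sub_div, div_self (mul_ne_zero (he0 _) hc0)]
      ring
    have h2 : ‖(γ t - ex (a + k * t 1) * c) / (ex (a + k * t 1) * c)‖ < 1 := by
      rw [norm_div, norm_mul, norm_ex, one_mul, div_lt_one (norm_pos_iff.mpr hc0)]
      exact hc t
    have h3 := (abs_le.mp (Complex.abs_re_le_norm ((γ t - ex (a + k * t 1) * c) / (ex (a + k * t 1) * c)))).1
    rw [h1, Complex.add_re, Complex.one_re]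
    linarith
  let L : Simp 1 → ℝ := fun t => 2 * Real.pi * (a + k * t 1) + c.arg + (q t).arg
  have hL : Continuous L := by
    have h1 : Continuous fun t => (q t).arg := by
      rw [continuous_iff_continuousAt]
      intro t
      exact ContinuousAt.comp (Complex.continuousAt_arg (Or.inl (hqre t))) hq.continuousAt
    have h2 : Continuous fun t : Simp 1 => 2 * Real.pi * (a + k * t 1) + c.arg := by
      exact (continuous_const.mul (continuous_const.add (continuous_const.mul hcont1))).add
        continuous_const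
    exact h2.add h1
  rw [turn_eq _ hL]
  · have e1 : (vtx 1 1 : Simp 1) 1 = 1 := by
      simp [vtx]
    have e0 : (vtx 1 0 : Simp 1) 1 = 0 := by
      simp [vtx]
    have e2 : q (vtx 1 1) = q (vtx 1 0) := by
      simp only [q]
      rw [e1, e0, hcl]
      congr 2
      rw [mul_one, mul_zero, add_zero]
      rw [ex, ex]
      rw [Complex.exp_eq_exp_iff_exists_int]
      refine ⟨k, ?_⟩
      push_cast
      ring
    simp only [L, e1, e0, e2]
    have hpi : (2 * Real.pi) ≠ 0 := by positivity
    field_simp
    ring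
  · intro t
    apply Circle.ext
    rw [Circle.coe_exp]
    change _ = γ t / (‖γ t‖ : ℂ)
    have hq0 : q t ≠ 0 := by
      intro h
      have := hqre t
      rw [h] at this
      simp at this
    have h1 : γ t = ex (a + k * t 1) * c * q t := by
      simp only [q]
      rw [mul_comm, div_mul_cancel₀ _ (mul_ne_zero (he0 _) hc0)]
    have h2 : (‖γ t‖ : ℂ) = ‖c‖ * ‖q t‖ := by
      rw [h1, norm_mul, norm_mul, norm_ex, one_mul]
      push_cast
      ring
    have h3 : Complex.exp ((L t : ℝ) * Complex.I) = ex (a + k * t 1) *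
        Complex.exp (c.arg * Complex.I) * Complex.exp ((q t).arg * Complex.I) := by
      rw [ex, ← Complex.exp_add, ← Complex.exp_add]
      congr 1
      simp only [L]
      push_cast
      ring
    have h4 := Complex.norm_mul_exp_arg_mul_I c
    have h5 := Complex.norm_mul_exp_arg_mul_I (q t)
    have hcn : (‖c‖ : ℂ) ≠ 0 := by exact_mod_cast norm_ne_zero_iff.mpr hc0
    have hqn : (‖q t‖ : ℂ) ≠ 0 := by exact_mod_cast norm_ne_zero_iff.mpr hq0
    rw [h2, eq_div_iff (mul_ne_zero hcn hqn), h3, h1]
    calc ex (a + k * t 1) * Complex.exp (c.arg * Complex.I) * Complex.exp ((q t).arg * Complex.I) *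
          (‖c‖ * ‖q t‖)
        = ex (a + k * t 1) * (‖c‖ * Complex.exp (c.arg * Complex.I)) *
          (‖q t‖ * Complex.exp ((q t).arg * Complex.I)) := by ring
      _ = _ := by rw [h4, h5]

end Pool.Agent.Helper89.RMax
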