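import Mathlib
import Pool.Agent.Helper89.RMax.Sys

/-!
# Joining torus families: several blocks rotating about a common centre
-/

set_option autoImplicit false

noncomputable section

namespace Pool.Agent.Helper89.RMax

open Classical in
/-- the size of the component of a root -/
def Sys.sz {V : Type} {R : ℝ} (S : Sys V R) [Fintype V] (ρ : V) : ℕ :=
  ∑ v, if S.rt v = ρ then 1 else 0

open Classical in
/-- the number of ordered pairs of vertices in the same component -/
def Sys.wt {V : Type} {R : ℝ} (S : Sys V R) [Fintype V] : ℕ :=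
  ∑ v, ∑ w, if S.rt v = S.rt w then 1 else 0

section Join

variable {ι : Type} {V : ι → Type} {R : ι → ℝ} (S : ∀ i, Sys (V i) (R i)) (c : ι → ℂ)
  {i0 i1 : ι} (ρ0 : V i0) (ρ1 : V i1)

open Classical in
/-- The join: the centres of the blocks rotate by a new angle, the one of the vertex `ρ1`. -/
def join (hi : i0 ≠ i1) (h0 : (S i0).par ρ0 = ρ0) (h1 : (S i1).par ρ1 = ρ1) (R' : ℝ)
    (hR : ∀ i, ‖c i‖ + R i ≤ R') (hsep : ∀ i j, i ≠ j → R i + R j ≤ ‖c i - c j‖) :
    Sys (Σ i, V i) R' where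
  par x := if x = ⟨i1, ρ1⟩ then ⟨i0, ρ0⟩ else ⟨x.1, (S x.1).par x.2⟩
  rt x := if (⟨x.1, (S x.1).rt x.2⟩ : Σ i, V i) = ⟨i1, ρ1⟩ then ⟨i0, ρ0⟩
    else ⟨x.1, (S x.1).rt x.2⟩
  rank x := (S x.1).rank x.2 + if x.1 = i1 then (S i0).rank ρ0 + 1 else 0
  pos y x := ex (y ⟨i1, ρ1⟩) * c x.1 + (S x.1).pos (fun w => y ⟨x.1, w⟩) x.2
  rank_par x hx := by
    by_cases h2 : x = ⟨i1, ρ1⟩
    · subst h2
      rw [if_pos rfl]
      simp only [if_neg hi, if_true]
      omega
    · rw [if_neg h2] at hx ⊢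
      have h5 : (S x.1).par x.2 ≠ x.2 := by
        intro h
        apply hx
        rw [h]
      have := (S x.1).rank_par x.2 h5
      simpa using this
  rt_par x := by
    have hne : (⟨i0, ρ0⟩ : Σ i, V i) ≠ ⟨i1, ρ1⟩ := fun h => hi (congrArg Sigma.fst h)
    by_cases hx : x = ⟨i1, ρ1⟩
    · subst hx
      rw [if_pos rfl]
      simp only [(S i0).rt_of_root ρ0 h0, (S i1).rt_of_root ρ1 h1, if_true, if_neg hne]
    · rw [if_neg hx]
      simp only [(S x.1).rt_par x.2]
  rt_of_root x hx := by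
    have hne : (⟨i0, ρ0⟩ : Σ i, V i) ≠ ⟨i1, ρ1⟩ := fun h => hi (congrArg Sigma.fst h)
    by_cases h2 : x = ⟨i1, ρ1⟩
    · rw [if_pos h2, h2] at hx
      exact absurd hx hne
    · rw [if_neg h2] at hx
      have h3 : (S x.1).par x.2 = x.2 := by
        obtain ⟨i, v⟩ := x
        simpa using hx
      have h4 : (⟨x.1, (S x.1).rt x.2⟩ : Σ i, V i) = x := by
        rw [(S x.1).rt_of_root x.2 h3]
      rw [h4, if_neg h2]
  par_rt x := by
    have hne : (⟨i0, ρ0⟩ : Σ i, V i) ≠ ⟨i1, ρ1⟩ := fun h => hi (congrArg Sigma.fst h)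
    by_cases h2 : (⟨x.1, (S x.1).rt x.2⟩ : Σ i, V i) = ⟨i1, ρ1⟩
    · rw [if_pos h2, if_neg hne]
      simp only [h0]
    · rw [if_neg h2, if_neg h2]
      simp only [(S x.1).par_rt x.2]
  cont := by
    apply continuous_pi
    intro x
    refine ((continuous_ex.comp (continuous_apply _)).mul continuous_const).add ?_
    refine (continuous_apply x.2).comp ((S x.1).cont.comp ?_)
    exact continuous_pi fun w => continuous_apply _
  periodic y y' h := by
    funext x
    have e1 : ex (y' ⟨i1, ρ1⟩) = ex (y ⟨i1, ρ1⟩) := by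
      rcases h ⟨i1, ρ1⟩ with h2 | h2
      · rw [h2]
      · rw [h2, ex_add_one]
    rw [e1, (S x.1).periodic (fun w => y ⟨x.1, w⟩) (fun w => y' ⟨x.1, w⟩) (fun w => h _)]
  indep y y' h := by
    have hne : (⟨i0, ρ0⟩ : Σ i, V i) ≠ ⟨i1, ρ1⟩ := fun h => hi (congrArg Sigma.fst h)
    funext x
    have e1 : y ⟨i1, ρ1⟩ = y' ⟨i1, ρ1⟩ := by
      apply h
      rw [if_pos rfl]
      exact hne
    rw [e1, (S x.1).indep (fun w => y ⟨x.1, w⟩) (fun w => y' ⟨x.1, w⟩)]
    intro v hv
    apply h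
    by_cases h2 : (⟨x.1, v⟩ : Σ i, V i) = ⟨i1, ρ1⟩
    · rw [if_pos h2, h2]
      exact hne
    · rw [if_neg h2]
      intro h3
      apply hv
      simpa using h3
  norm_le y x := by
    calc ‖ex (y ⟨i1, ρ1⟩) * c x.1 + (S x.1).pos (fun w => y ⟨x.1, w⟩) x.2‖
        ≤ ‖ex (y ⟨i1, ρ1⟩) * c x.1‖ + ‖(S x.1).pos (fun w => y ⟨x.1, w⟩) x.2‖ := norm_add_le _ _
      _ ≤ ‖c x.1‖ + (R x.1 - 1) := by
        rw [norm_mul, norm_ex, one_mul]
        exact add_le_add_right ((S x.1).norm_le _ _) _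
      _ ≤ R' - 1 := by
        have := hR x.1
        linarith
  sep y x x' hx := by
    obtain ⟨i, v⟩ := x
    obtain ⟨j, w⟩ := x'
    by_cases hij : i = j
    · subst hij
      have hvw : v ≠ w := by
        rintro rfl
        exact hx rfl
      have := (S i).sep (fun w => y ⟨i, w⟩) v w hvw
      simpa using this
    · have h3 := hsep i j hij
      have h4 := (S i).norm_le (fun w => y ⟨i, w⟩) v
      have h5 := (S j).norm_le (fun w => y ⟨j, w⟩) w
      set z := ex (y ⟨i1, ρ1⟩)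
      set a := (S i).pos (fun w => y ⟨i, w⟩) v
      set b := (S j).pos (fun w => y ⟨j, w⟩) w
      have h6 : ‖z * (c i - c j)‖ = ‖c i - c j‖ := by
        rw [norm_mul, norm_ex, one_mul]
      have h7 : z * (c i - c j) = (z * c i + a - (z * c j + b)) + (b - a) := by ring
      have h8 : ‖z * (c i - c j)‖ ≤ ‖z * c i + a - (z * c j + b)‖ + (‖b‖ + ‖a‖) := by
        rw [h7]
        exact (norm_add_le _ _).trans (add_le_add_right (norm_sub_le _ _) _)
      change 2 ≤ ‖z * c i + a - (z * c j + b)‖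
      linarith
  deg x hx := by
    by_cases h2 : x = ⟨i1, ρ1⟩
    · subst h2
      rw [if_pos rfl]
      refine ⟨c i1 - c i0, fun y => ?_⟩
      have h3 := hsep i1 i0 hi.symm
      have h4 := (S i0).norm_le (fun w => y ⟨i0, w⟩) ρ0
      have h5 := (S i1).norm_le (fun w => y ⟨i1, w⟩) ρ1
      simp only
      set z := ex (y ⟨i1, ρ1⟩)
      set a := (S i0).pos (fun w => y ⟨i0, w⟩) ρ0
      set b := (S i1).pos (fun w => y ⟨i1, w⟩) ρ1
      have h7 : z * c i1 + b - (z * c i0 + a) - z * (c i1 - c i0) = b - a := by ring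
      rw [h7]
      have := norm_sub_le b a
      linarith
    · rw [if_neg h2] at hx ⊢
      have h3 : (S x.1).par x.2 ≠ x.2 := by
        intro h
        apply hx
        rw [h]
      obtain ⟨d, hd⟩ := (S x.1).deg x.2 h3
      refine ⟨d, fun y => ?_⟩
      have := hd (fun w => y ⟨x.1, w⟩)
      simpa using this

end Join

end Pool.Agent.Helper89.RMax
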