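import Mathlib
import Pool.Agent.Helper89.RMax.Join

/-!
# Component sizes of joined families
-/

set_option autoImplicit false

noncomputable section

namespace Pool.Agent.Helper89.RMax

lemma ite_aux1 {α : Type} [DecidableEq α] {r0 r1 : α} (hne : r0 ≠ r1) (J : α)
    [Decidable ((if J = r1 then r0 else J) = r0)] :
    (if J = r0 then 1 else 0) + (if J = r1 then 1 else 0) ≤
      if (if J = r1 then r0 else J) = r0 then 1 else 0 := by
  by_cases h1 : J = r1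
  · subst h1
    simp [hne.symm]
  · simp [h1]

lemma ite_aux2 {α : Type} [DecidableEq α] {r0 r1 : α} (hne : r0 ≠ r1) (J K : α)
    [Decidable ((if J = r1 then r0 else J) = (if K = r1 then r0 else K))] :
    (if J = K then 1 else 0) + (if J = r0 then 1 else 0) * (if K = r1 then 1 else 0) +
      (if J = r1 then 1 else 0) * (if K = r0 then 1 else 0) ≤
      if (if J = r1 then r0 else J) = (if K = r1 then r0 else K) then 1 else 0 := by
  by_cases hJ1 : J = r1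
  · by_cases hK1 : K = r1
    · subst hJ1
      subst hK1
      simp [hne.symm]
    · by_cases hK0 : K = r0
      · subst hJ1
        subst hK0
        simp [hne, hne.symm]
      · have : J ≠ K := fun h => hK1 (h ▸ hJ1)
        rw [if_neg this, if_neg hK1, if_neg hK0]
        simp
  · by_cases hK1 : K = r1
    · by_cases hJ0 : J = r0
      · subst hJ0
        subst hK1
        simp [hne]
      · have : J ≠ K := fun h => hJ1 (h ▸ hK1)
        rw [if_neg this, if_neg hJ1, if_neg hJ0]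
        simp
    · simp [hJ1, hK1]

/-- no vertex is isolated -/
def Sys.NoIso {V : Type} {R : ℝ} (S : Sys V R) : Prop := ∀ v, ∃ w, w ≠ v ∧ S.rt w = S.rt v

section

variable {ι : Type} [Fintype ι] {V : ι → Type} [∀ i, Fintype (V i)] {R : ι → ℝ}
  (S : ∀ i, Sys (V i) (R i)) (c : ι → ℂ)
  {i0 i1 : ι} (ρ0 : V i0) (ρ1 : V i1)

open Classical in
lemma sum_root (i : ι) (ρ : V i) :
    ∑ x : Σ i, V i, (if (⟨x.1, (S x.1).rt x.2⟩ : Σ i, V i) = ⟨i, ρ⟩ then 1 else 0) = (S i).sz ρ := by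
  rw [Fintype.sum_sigma, Finset.sum_eq_single i]
  · rw [Sys.sz]
    refine Finset.sum_congr rfl fun v _ => ?_
    simp
  · intro j _ hj
    apply Finset.sum_eq_zero
    intro v _
    rw [if_neg]
    intro h
    exact hj (congrArg Sigma.fst h)
  · simp

open Classical in
lemma sum_pairs :
    ∑ x : Σ i, V i, ∑ y : Σ i, V i, (if (⟨x.1, (S x.1).rt x.2⟩ : Σ i, V i) =
      ⟨y.1, (S y.1).rt y.2⟩ then 1 else 0) = ∑ i, (S i).wt := by
  rw [Fintype.sum_sigma]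
  refine Finset.sum_congr rfl fun i _ => ?_
  rw [Sys.wt]
  refine Finset.sum_congr rfl fun v _ => ?_
  rw [Fintype.sum_sigma, Finset.sum_eq_single i]
  · refine Finset.sum_congr rfl fun w _ => ?_
    simp
  · intro j _ hj
    apply Finset.sum_eq_zero
    intro w _
    rw [if_neg]
    intro h
    exact hj (congrArg Sigma.fst h).symm
  · simp

variable (hi : i0 ≠ i1) (h0 : (S i0).par ρ0 = ρ0) (h1 : (S i1).par ρ1 = ρ1) (R' : ℝ)
    (hR : ∀ i, ‖c i‖ + R i ≤ R') (hsep : ∀ i j, i ≠ j → R i + R j ≤ ‖c i - c j‖)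

include hi in
lemma join_sz : (S i0).sz ρ0 + (S i1).sz ρ1 ≤
    (join S c ρ0 ρ1 hi h0 h1 R' hR hsep).sz ⟨i0, ρ0⟩ := by
  classical
  rw [← sum_root S, ← sum_root S, ← Finset.sum_add_distrib, Sys.sz]
  refine Finset.sum_le_sum fun x _ => ?_
  have hne : (⟨i0, ρ0⟩ : Σ i, V i) ≠ ⟨i1, ρ1⟩ := fun h => hi (congrArg Sigma.fst h)
  exact @ite_aux1 _ _ _ _ hne (⟨x.1, (S x.1).rt x.2⟩ : Σ i, V i) (Classical.propDecidable _)

include hi in
lemma join_wt : ∑ i, (S i).wt + 2 * ((S i0).sz ρ0 * (S i1).sz ρ1) ≤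
    (join S c ρ0 ρ1 hi h0 h1 R' hR hsep).wt := by
  classical
  have hne : (⟨i0, ρ0⟩ : Σ i, V i) ≠ ⟨i1, ρ1⟩ := fun h => hi (congrArg Sigma.fst h)
  have e1 : (S i0).sz ρ0 * (S i1).sz ρ1 = ∑ x : Σ i, V i, ∑ y : Σ i, V i,
      (if (⟨x.1, (S x.1).rt x.2⟩ : Σ i, V i) = ⟨i0, ρ0⟩ then 1 else 0) *
      (if (⟨y.1, (S y.1).rt y.2⟩ : Σ i, V i) = ⟨i1, ρ1⟩ then 1 else 0) := by
    rw [← sum_root S, ← sum_root S, Finset.sum_mul_sum]
  have e2 : (S i0).sz ρ0 * (S i1).sz ρ1 = ∑ x : Σ i, V i, ∑ y : Σ i, V i,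
      (if (⟨x.1, (S x.1).rt x.2⟩ : Σ i, V i) = ⟨i1, ρ1⟩ then 1 else 0) *
      (if (⟨y.1, (S y.1).rt y.2⟩ : Σ i, V i) = ⟨i0, ρ0⟩ then 1 else 0) := by
    rw [← sum_root S, ← sum_root S, mul_comm, Finset.sum_mul_sum]
  have e3 : ∑ i, (S i).wt + 2 * ((S i0).sz ρ0 * (S i1).sz ρ1) =
      ∑ i, (S i).wt + (S i0).sz ρ0 * (S i1).sz ρ1 + (S i0).sz ρ0 * (S i1).sz ρ1 := by ring
  rw [e3]
  nth_rewrite 1 [e1]
  rw [e2, ← sum_pairs S, ← Finset.sum_add_distrib, ← Finset.sum_add_distrib, Sys.wt]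
  refine Finset.sum_le_sum fun x _ => ?_
  rw [← Finset.sum_add_distrib, ← Finset.sum_add_distrib]
  refine Finset.sum_le_sum fun y _ => ?_
  exact @ite_aux2 _ _ _ _ hne (⟨x.1, (S x.1).rt x.2⟩ : Σ i, V i) ⟨y.1, (S y.1).rt y.2⟩
    (Classical.propDecidable _)

omit [Fintype ι] [∀ i, Fintype (V i)] in
include hi in
lemma join_noIso (hS : ∀ i, (S i).NoIso) : (join S c ρ0 ρ1 hi h0 h1 R' hR hsep).NoIso := by
  classical
  intro x
  obtain ⟨w, hw1, hw2⟩ := hS x.1 x.2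
  refine ⟨⟨x.1, w⟩, ?_, ?_⟩
  · intro h
    apply hw1
    obtain ⟨i, v⟩ := x
    simpa using h
  · simp only [join, hw2]

end

end Pool.Agent.Helper89.RMax
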