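import Mathlib
import Pool.Agent.Helper89.RMax.Weight
import Pool.Agent.Helper89.RMax.Packing

/-!
# Blocks with a large number of pairs of disks in the same component
-/

set_option autoImplicit false

noncomputable section

namespace Pool.Agent.Helper89.RMax

/-- a torus family in the disk of radius `2^k` with a marked component of size at least `2^k` -/
structure Block (k : ℕ) where
  /-- the labels -/
  V : Type
  /-- finitely many -/
  fin : Fintype V
  /-- the family -/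
  S : Sys V ((2 : ℝ) ^ k)
  /-- the root of the marked component -/
  ρ : V
  root : S.par ρ = ρ
  noIso : S.NoIso
  size : (2 : ℝ) ^ k ≤ (@Sys.sz V _ S fin ρ : ℝ)

attribute [instance] Block.fin

/-- there is a block with `wt ≥ A 4^k` -/
def Good (k : ℕ) (A : ℝ) : Prop := ∃ b : Block k, A * 4 ^ k ≤ (b.S.wt : ℝ)

lemma Good.mono {k : ℕ} {A B : ℝ} (h : Good k A) (hB : B ≤ A) : Good k B := by
  obtain ⟨b, hb⟩ := h
  exact ⟨b, (mul_le_mul_of_nonneg_right hB (by positivity)).trans hb⟩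

/-- two disks rotating about each other -/
def pairSys : Sys Bool ((2 : ℝ) ^ 1) where
  par _ := false
  rt _ := false
  rank b := if b then 1 else 0
  pos y b := if b then ex (y true) else -ex (y true)
  rank_par v hv := by
    cases v
    · exact absurd rfl hv
    · simp
  rt_par v := rfl
  rt_of_root v hv := hv
  par_rt v := rfl
  cont := by
    apply continuous_pi
    intro v
    have h : Continuous fun y : Bool → ℝ => ex (y true) := continuous_ex.comp (continuous_apply _)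
    cases v
    · exact h.neg
    · exact h
  periodic y y' h := by
    have e1 : ex (y' true) = ex (y true) := by
      rcases h true with h2 | h2
      · rw [h2]
      · rw [h2, ex_add_one]
    funext v
    rw [e1]
  indep y y' h := by
    funext v
    rw [h true (by simp)]
  norm_le y v := by
    cases v
    · simp only [Bool.false_eq_true, if_false, norm_neg, norm_ex]
      norm_num
    · simp only [if_true, norm_ex]
      norm_num
  sep y v w hvw := by
    have h1 : ‖(2 : ℂ) * ex (y true)‖ = 2 := by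
      rw [norm_mul, norm_ex]
      simp
    cases v <;> cases w
    · exact absurd rfl hvw
    · simp only [Bool.false_eq_true, if_false, if_true]
      rw [← h1, ← norm_neg]
      apply le_of_eq
      congr 1
      ring
    · simp only [Bool.false_eq_true, if_false, if_true]
      rw [← h1]
      apply le_of_eq
      congr 1
      ring
    · exact absurd rfl hvw
  deg v hv := by
    cases v
    · exact absurd rfl hv
    · refine ⟨2, fun y => ?_⟩
      simp only [Bool.false_eq_true, if_false, if_true]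
      rw [show ex (y true) - -ex (y true) - ex (y true) * 2 = 0 by ring]
      simp

/-- the block of two disks -/
def pairBlock : Block 1 where
  V := Bool
  fin := inferInstance
  S := pairSys
  ρ := false
  root := rfl
  noIso v := ⟨!v, by simp, rfl⟩
  size := by
    have : pairSys.sz false = 2 := by
      simp [Sys.sz, pairSys]
    rw [this]
    norm_num

lemma pow_sub_half (k i : ℕ) (h : i ≤ k + 1) :
    (2 : ℝ) ^ (k + 1 - i) = 2 ^ (k + 1) * (1 / 2) ^ i := by
  rw [pow_sub₀ _ two_ne_zero h, one_div, inv_pow]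

lemma step (k : ℕ) (A : ℝ) (J : Finset (ℂ × ℕ))
    (hJ1 : ∀ a ∈ J, 1 ≤ a.2 ∧ ‖a.1‖ + (1 / 2 : ℝ) ^ a.2 ≤ 1 ∧
      1 / 2 + (1 / 2 : ℝ) ^ a.2 ≤ ‖a.1 - 1 / 2‖ ∧ 1 / 2 + (1 / 2 : ℝ) ^ a.2 ≤ ‖a.1 + 1 / 2‖)
    (hJ2 : ∀ a ∈ J, ∀ b ∈ J, a ≠ b → (1 / 2 : ℝ) ^ a.2 + (1 / 2 : ℝ) ^ b.2 ≤ ‖a.1 - b.1‖)
    (hk : Good k A) (hg : ∀ a ∈ J, a.2 ≤ k + 1 ∧ Good (k + 1 - a.2) A) :
    Good (k + 1) (A / 2 + 1 / 2 + A * ∑ a ∈ J, ((1 / 2 : ℝ) ^ a.2) ^ 2) := by
  classical
  let κ : Bool ⊕ J → ℕ := Sum.elim (fun _ => k) (fun a => k + 1 - a.1.2)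
  have hb : ∀ i : Bool ⊕ J, ∃ b : Block (κ i), A * 4 ^ (κ i) ≤ (b.S.wt : ℝ) := by
    rintro (i | a)
    · exact hk
    · exact (hg a.1 a.2).2
  choose b hb using hb
  let c : Bool ⊕ J → ℂ := Sum.elim (fun i => if i then 2 ^ k else -2 ^ k) (fun a => 2 ^ (k + 1) * a.1.1)
  have hp : (0 : ℝ) < 2 ^ (k + 1) := by positivity
  have hn2 : ‖(2 : ℂ) ^ (k + 1)‖ = 2 ^ (k + 1) := by simp
  have hR : ∀ i, ‖c i‖ + (2 : ℝ) ^ (κ i) ≤ 2 ^ (k + 1) := by
    rintro (i | a)
    · have : ‖c (Sum.inl i)‖ = 2 ^ k := by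
        cases i <;> simp [c]
      rw [this]
      simp only [κ, Sum.elim_inl]
      rw [pow_succ]
      linarith
    · simp only [c, κ, Sum.elim_inr]
      rw [norm_mul, hn2, pow_sub_half k a.1.2 (hg a.1 a.2).1, ← mul_add]
      exact mul_le_of_le_one_right hp.le (hJ1 a.1 a.2).2.1
  have hmix : ∀ (i : Bool) (a : J), (2 : ℝ) ^ (κ (Sum.inl i)) + 2 ^ (κ (Sum.inr a)) ≤
      ‖c (Sum.inr a) - c (Sum.inl i)‖ := by
    intro i a
    simp only [c, κ, Sum.elim_inr, Sum.elim_inl]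
    rw [pow_sub_half k a.1.2 (hg a.1 a.2).1]
    have e1 : (2 : ℝ) ^ k = 2 ^ (k + 1) * (1 / 2) := by rw [pow_succ]; ring
    have e2 : (2 : ℂ) ^ k = 2 ^ (k + 1) * (1 / 2) := by rw [pow_succ]; ring
    rw [e1, ← mul_add]
    cases i
    · rw [if_neg (by simp), e2, show (2 : ℂ) ^ (k + 1) * a.1.1 - -(2 ^ (k + 1) * (1 / 2)) =
        2 ^ (k + 1) * (a.1.1 + 1 / 2) by ring, norm_mul, hn2]
      exact mul_le_mul_of_nonneg_left (hJ1 a.1 a.2).2.2.2 hp.le
    · rw [if_pos rfl, e2, show (2 : ℂ) ^ (k + 1) * a.1.1 - (2 ^ (k + 1) * (1 / 2)) =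
        2 ^ (k + 1) * (a.1.1 - 1 / 2) by ring, norm_mul, hn2]
      exact mul_le_mul_of_nonneg_left (hJ1 a.1 a.2).2.2.1 hp.le
  have hsep : ∀ i j, i ≠ j → (2 : ℝ) ^ (κ i) + 2 ^ (κ j) ≤ ‖c i - c j‖ := by
    rintro (i | a) (j | b) hij
    · have hij' : i ≠ j := fun h => hij (by rw [h])
      have e3 : ‖(2 : ℂ) ^ k + 2 ^ k‖ = 2 ^ k + 2 ^ k := by
        rw [← two_mul, ← two_mul, norm_mul]
        simp
      simp only [c, κ, Sum.elim_inl]
      cases i <;> cases j
      · exact absurd rfl hij'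
      · rw [if_neg (by simp), if_pos rfl, show -(2 : ℂ) ^ k - 2 ^ k = -(2 ^ k + 2 ^ k) by ring,
          norm_neg, e3]
      · rw [if_pos rfl, if_neg (by simp), sub_neg_eq_add, e3]
      · exact absurd rfl hij'
    · rw [norm_sub_rev]
      exact hmix i b
    · rw [add_comm]
      exact hmix j a
    · have hab : a.1 ≠ b.1 := fun h => hij (by rw [Subtype.ext h])
      simp only [c, κ, Sum.elim_inr]
      rw [pow_sub_half k a.1.2 (hg a.1 a.2).1, pow_sub_half k b.1.2 (hg b.1 b.2).1, ← mul_add,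
        ← mul_sub, norm_mul, hn2]
      exact mul_le_mul_of_nonneg_left (hJ2 a.1 a.2 b.1 b.2 hab) hp.le
  have hi : (Sum.inl false : Bool ⊕ J) ≠ Sum.inl true := by simp
  let T := join (fun i => (b i).S) c (b (Sum.inl false)).ρ (b (Sum.inl true)).ρ hi
    (b (Sum.inl false)).root (b (Sum.inl true)).root (2 ^ (k + 1)) hR hsep
  have hs0 : (2 : ℝ) ^ k ≤ (((b (Sum.inl false)).S.sz (b (Sum.inl false)).ρ : ℕ) : ℝ) :=
    (b (Sum.inl false)).size
  have hs1 : (2 : ℝ) ^ k ≤ (((b (Sum.inl true)).S.sz (b (Sum.inl true)).ρ : ℕ) : ℝ) :=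
    (b (Sum.inl true)).size
  have hsz := join_sz (fun i => (b i).S) c (b (Sum.inl false)).ρ (b (Sum.inl true)).ρ hi
    (b (Sum.inl false)).root (b (Sum.inl true)).root (2 ^ (k + 1)) hR hsep
  have hwt := join_wt (fun i => (b i).S) c (b (Sum.inl false)).ρ (b (Sum.inl true)).ρ hi
    (b (Sum.inl false)).root (b (Sum.inl true)).root (2 ^ (k + 1)) hR hsep
  refine ⟨⟨_, inferInstance, T, ⟨Sum.inl false, (b (Sum.inl false)).ρ⟩, ?_, ?_, ?_⟩, ?_⟩
  · simp only [T, join]
    rw [if_neg (fun h => hi (congrArg Sigma.fst h)), (b (Sum.inl false)).root]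
  · exact join_noIso _ _ _ _ hi _ _ _ _ _ (fun i => (b i).noIso)
  · have h1 : ((((b (Sum.inl false)).S.sz (b (Sum.inl false)).ρ : ℕ) : ℝ)) +
      (((b (Sum.inl true)).S.sz (b (Sum.inl true)).ρ : ℕ) : ℝ) ≤
      ((T.sz ⟨Sum.inl false, (b (Sum.inl false)).ρ⟩ : ℕ) : ℝ) := by exact_mod_cast hsz
    refine le_trans ?_ h1
    rw [pow_succ]
    linarith
  · have h1 : ∑ i, (((b i).S.wt : ℕ) : ℝ) + 2 * (((((b (Sum.inl false)).S.sz (b (Sum.inl false)).ρ : ℕ) : ℝ)) *
      (((b (Sum.inl true)).S.sz (b (Sum.inl true)).ρ : ℕ) : ℝ)) ≤ ((T.wt : ℕ) : ℝ) := by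
      exact_mod_cast hwt
    refine le_trans ?_ h1
    have h2 : (2 : ℝ) ^ k * 2 ^ k ≤ (((b (Sum.inl false)).S.sz (b (Sum.inl false)).ρ : ℕ) : ℝ) *
      (((b (Sum.inl true)).S.sz (b (Sum.inl true)).ρ : ℕ) : ℝ) :=
      mul_le_mul hs0 hs1 (by positivity) (by positivity)
    have h3 : (2 : ℝ) ^ k * 2 ^ k = 4 ^ k := by
      rw [← mul_pow]
      norm_num
    rw [h3] at h2
    have h4 : ∑ i, A * 4 ^ (κ i) ≤ ∑ i, (((b i).S.wt : ℕ) : ℝ) := Finset.sum_le_sum fun i _ => hb i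
    have h5 : ∑ i, A * (4 : ℝ) ^ (κ i) = 2 * (A * 4 ^ k) +
        A * (4 ^ (k + 1) * ∑ a ∈ J, ((1 / 2 : ℝ) ^ a.2) ^ 2) := by
      rw [Fintype.sum_sum_type]
      congr 1
      · simp only [κ, Sum.elim_inl, Finset.sum_const, Finset.card_univ, Fintype.card_bool]
        simp
      · simp only [κ, Sum.elim_inr]
        rw [Finset.mul_sum, Finset.mul_sum, ← Finset.sum_coe_sort J]
        refine Finset.sum_congr rfl fun a _ => ?_
        congr 1
        have h6 : ∀ m : ℕ, (4 : ℝ) ^ m = (2 ^ m) ^ 2 := fun m => by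
          rw [← pow_mul, mul_comm, pow_mul]
          norm_num
        rw [h6, h6, pow_sub_half k a.1.2 (hg a.1 a.2).1, mul_pow]
    rw [h5] at h4
    have h7 : (A / 2 + 1 / 2 + A * ∑ a ∈ J, ((1 / 2 : ℝ) ^ a.2) ^ 2) * 4 ^ (k + 1) =
        (2 * (A * 4 ^ k) + A * (4 ^ (k + 1) * ∑ a ∈ J, ((1 / 2 : ℝ) ^ a.2) ^ 2)) + 2 * 4 ^ k := by
      rw [pow_succ]
      ring
    rw [h7]
    linarith

lemma good_zero (k : ℕ) : Good (k + 1) 0 := by
  induction k with
  | zero => exact ⟨pairBlock, by simp⟩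
  | succ k ih =>
    exact (step (k + 1) 0 ∅ (by simp) (by simp) ih (by simp)).mono (by simp)

/-- Blocks with `wt ≥ A 4^k` exist for every `A`, for all large `k`. -/
theorem good_large (n : ℕ) : ∃ K, ∀ k, K ≤ k → Good k (n / 4) := by
  induction n with
  | zero =>
    refine ⟨1, fun k hk => ?_⟩
    obtain ⟨j, rfl⟩ := Nat.exists_eq_add_of_le' hk
    simpa using good_zero j
  | succ n ih =>
    obtain ⟨K, hK⟩ := ih
    set A : ℝ := (n : ℝ) / 4 with hA
    have hA0 : 0 ≤ A := by positivity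
    obtain ⟨J, hJ1, hJ2, hJ3⟩ := packing (1 / (4 * (A + 1))) (by positivity)
    set c := J.sup (fun a => a.2) with hc
    refine ⟨K + c + 1, fun k hk => ?_⟩
    obtain ⟨j, rfl⟩ : ∃ j, k = j + 1 := ⟨k - 1, by omega⟩
    have hle : ∀ a ∈ J, a.2 ≤ c := fun a ha => Finset.le_sup (f := fun a : ℂ × ℕ => a.2) ha
    refine (step j A J hJ1 hJ2 (hK j (by omega)) (fun a ha => ⟨?_, hK _ ?_⟩)).mono ?_
    · have := hle a ha
      omega
    · have := hle a ha
      omega
    · have h1 : A * (1 / 2 - 1 / (4 * (A + 1))) ≤ A * ∑ a ∈ J, ((1 / 2 : ℝ) ^ a.2) ^ 2 :=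
        mul_le_mul_of_nonneg_left hJ3 hA0
      have h2 : A * (1 / (4 * (A + 1))) ≤ 1 / 4 := by
        rw [mul_one_div, div_le_div_iff₀ (by positivity) (by norm_num)]
        linarith
      have h3 : ((n + 1 : ℕ) : ℝ) / 4 = A + 1 / 4 := by
        rw [hA]
        push_cast
        ring
      rw [h3]
      linarith

end Pool.Agent.Helper89.RMax
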