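import Mathlib
import Pool.Agent.Helper89.RMax.Defs

/-!
# The forest of a parent map
-/

set_option autoImplicit false

noncomputable section

namespace Pool.Agent.Helper89.RMax

section Acyclic

/-- A graph on a linear order in which every vertex has at most one smaller neighbour has no
cycle. -/
lemma isAcyclic_of_unique {n : ℕ} (G : SimpleGraph (Fin n))
    (h : ∀ a a' b, G.Adj a b → G.Adj a' b → a < b → a' < b → a = a') : G.IsAcyclic := by
  classical
  intro v c hc
  obtain ⟨u, hu, hmax⟩ := c.support.toFinset.exists_max_image id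
    ⟨v, List.mem_toFinset.mpr c.start_mem_support⟩
  have hu' : u ∈ c.support := List.mem_toFinset.mp hu
  have hcyc : (c.rotate u hu').IsCycle := hc.rotate hu'
  have hle : ∀ w ∈ (c.rotate u hu').support, w ≤ u := by
    intro w hw
    apply hmax w
    rw [List.mem_toFinset]
    rwa [SimpleGraph.Walk.mem_support_rotate_iff] at hw
  have h1 := SimpleGraph.Walk.adj_snd hcyc.not_nil
  have h2 := SimpleGraph.Walk.adj_penultimate hcyc.not_nil
  refine hcyc.snd_ne_penultimate (h _ _ u h1.symm h2 ?_ ?_)
  · exact lt_of_le_of_ne (hle _ (SimpleGraph.Walk.getVert_mem_support _ _)) h1.ne'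
  · exact lt_of_le_of_ne (hle _ (SimpleGraph.Walk.getVert_mem_support _ _)) h2.ne

end Acyclic

section ParentMap

variable {n : ℕ} (par rt : Fin n → Fin n)

/-- the graph of a parent map -/
def parGraph : SimpleGraph (Fin n) := SimpleGraph.fromRel (fun a b => par b = a)

lemma parGraph_adj (a b : Fin n) : (parGraph par).Adj a b ↔ a ≠ b ∧ (par b = a ∨ par a = b) :=
  SimpleGraph.fromRel_adj _ _ _

variable (hlt : ∀ v, par v ≠ v → par v < v)

include hlt in
lemma par_of_adj_lt {a b : Fin n} (h : (parGraph par).Adj a b) (hab : a < b) : par b = a := by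
  rw [parGraph_adj] at h
  rcases h.2 with h1 | h1
  · exact h1
  · have := hlt a (by rw [h1]; exact h.1.symm)
    rw [h1] at this
    exact absurd this hab.not_gt

include hlt in
lemma isOrderedForest_parGraph : IsOrderedForest (parGraph par) := by
  have h : ∀ a a' b, (parGraph par).Adj a b → (parGraph par).Adj a' b → a < b → a' < b → a = a' := by
    intro a a' b h1 h2 h3 h4
    rw [← par_of_adj_lt par hlt h1 h3, ← par_of_adj_lt par hlt h2 h4]
  exact ⟨isAcyclic_of_unique _ h, h⟩

variable (hrt1 : ∀ v, rt (par v) = rt v) (hrt2 : ∀ v, par v = v → rt v = v)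

include hrt1 in
lemma rt_eq_of_reachable {a b : Fin n} (h : (parGraph par).Reachable a b) : rt a = rt b := by
  obtain ⟨p⟩ := h
  induction p with
  | nil => rfl
  | cons h _ ih =>
    rw [← ih]
    rw [parGraph_adj] at h
    rcases h.2 with h1 | h1
    · rw [← h1, hrt1]
    · rw [← h1, hrt1]

include hlt hrt1 hrt2 in
lemma reachable_rt (v : Fin n) : (parGraph par).Reachable v (rt v) := by
  induction v using WellFoundedLT.induction with
  | ind v ih =>
    by_cases hv : par v = v
    · rw [hrt2 v hv]
    · have h1 : (parGraph par).Adj v (par v) := by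
        rw [parGraph_adj]
        exact ⟨fun h => hv h.symm, Or.inr rfl⟩
      have h2 := ih (par v) (hlt v hv)
      rw [hrt1] at h2
      exact h1.reachable.trans h2

include hlt hrt1 hrt2 in
lemma reachable_iff (a b : Fin n) : (parGraph par).Reachable a b ↔ rt a = rt b := by
  constructor
  · exact rt_eq_of_reachable par rt hrt1
  · intro h
    have h1 := reachable_rt par rt hlt hrt1 hrt2 a
    rw [h] at h1
    exact h1.trans (reachable_rt par rt hlt hrt1 hrt2 b).symm

end ParentMap

section Sizes

variable {n : ℕ} (par rt : Fin n → Fin n) (hlt : ∀ v, par v ≠ v → par v < v)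
  (hrt1 : ∀ v, rt (par v) = rt v) (hrt2 : ∀ v, par v = v → rt v = v) (hrt3 : ∀ v, par (rt v) = rt v)
  (hiso : ∀ v, ∃ w, w ≠ v ∧ rt w = rt v)

open Classical in
/-- the size of a component -/
lemma card_supp_eq {n : ℕ} (G : SimpleGraph (Fin n)) (c : G.ConnectedComponent) :
    Nat.card c.supp = (Finset.univ.filter fun v => G.connectedComponentMk v = c).card := by
  rw [Nat.card_eq_fintype_card, ← Set.toFinset_card]
  congr 1
  ext v
  simp [SimpleGraph.ConnectedComponent.mem_supp_iff]

include hlt hrt1 hrt2 hiso in
lemma two_le_supp (c : (parGraph par).ConnectedComponent) : 2 ≤ Nat.card c.supp := by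
  classical
  rw [card_supp_eq]
  induction c using SimpleGraph.ConnectedComponent.ind with
  | h v =>
    obtain ⟨w, hw1, hw2⟩ := hiso v
    have h1 : 1 < (Finset.univ.filter fun x => (parGraph par).connectedComponentMk x =
        (parGraph par).connectedComponentMk v).card := by
      rw [Finset.one_lt_card]
      refine ⟨v, by simp, w, ?_, hw1.symm⟩
      rw [Finset.mem_filter]
      refine ⟨Finset.mem_univ _, ?_⟩
      rw [SimpleGraph.ConnectedComponent.eq]
      exact (reachable_iff par rt hlt hrt1 hrt2 w v).mpr hw2
    exact h1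

include hlt hrt1 hrt2 hiso in
lemma shape_parGraph : shape (parGraph par) =
    (@Finset.univ (parGraph par).ConnectedComponent (Fintype.ofFinite _)).val.map
      (fun c => Nat.card c.supp) := by
  rw [shape, Multiset.filter_eq_self]
  intro a ha
  rw [Multiset.mem_map] at ha
  obtain ⟨c, _, rfl⟩ := ha
  exact two_le_supp par rt hlt hrt1 hrt2 hiso c

include hlt hrt1 hrt2 hiso in
lemma shape_ge (a : ℕ) (ha : a ∈ shape (parGraph par)) : 2 ≤ a := by
  rw [shape_parGraph par rt hlt hrt1 hrt2 hiso, Multiset.mem_map] at ha
  obtain ⟨c, _, rfl⟩ := ha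
  exact two_le_supp par rt hlt hrt1 hrt2 hiso c

include hlt hrt1 hrt2 hiso in
lemma shape_map_sum {M : Type} [AddCommMonoid M] (g : ℕ → M) :
    ((shape (parGraph par)).map g).sum =
      ∑ c ∈ (@Finset.univ (parGraph par).ConnectedComponent (Fintype.ofFinite _)),
        g (Nat.card c.supp) := by
  rw [shape_parGraph par rt hlt hrt1 hrt2 hiso, Multiset.map_map]
  rfl

include hlt hrt1 hrt2 hiso in
lemma shape_sum : (shape (parGraph par)).sum = n := by
  classical
  have h := shape_map_sum par rt hlt hrt1 hrt2 hiso (g := id)
  rw [Multiset.map_id] at h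
  rw [h]
  simp only [id, card_supp_eq]
  let _ : Fintype (parGraph par).ConnectedComponent := Fintype.ofFinite _
  rw [← Finset.card_eq_sum_card_fiberwise (s := Finset.univ)
    (f := fun v : Fin n => (parGraph par).connectedComponentMk v) (fun _ _ => Finset.mem_univ _)]
  simp

open Classical in
include hlt hrt1 hrt2 hiso in
lemma shape_sum_sq : ((shape (parGraph par)).map (fun a : ℕ => (a : ℝ) ^ 2)).sum =
    ((∑ v : Fin n, ∑ w : Fin n, if rt v = rt w then 1 else 0 : ℕ) : ℝ) := by
  classical
  rw [shape_map_sum par rt hlt hrt1 hrt2 hiso (g := fun a : ℕ => (a : ℝ) ^ 2)]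
  let _ : Fintype (parGraph par).ConnectedComponent := Fintype.ofFinite _
  have h1 : ∀ v : Fin n, (∑ w : Fin n, if rt v = rt w then 1 else 0) =
      (Finset.univ.filter fun w => (parGraph par).connectedComponentMk w =
        (parGraph par).connectedComponentMk v).card := by
    intro v
    rw [Finset.card_filter]
    refine Finset.sum_congr rfl fun w _ => ?_
    congr 1
    rw [SimpleGraph.ConnectedComponent.eq, reachable_iff par rt hlt hrt1 hrt2]
    exact propext ⟨Eq.symm, Eq.symm⟩
  simp_rw [h1]
  push_cast
  rw [← Finset.sum_fiberwise_of_maps_to (s := Finset.univ) (t := Finset.univ)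
    (g := fun v : Fin n => (parGraph par).connectedComponentMk v) (fun _ _ => Finset.mem_univ _)]
  refine Finset.sum_congr rfl fun c _ => ?_
  rw [card_supp_eq]
  have h2 : ∀ v ∈ Finset.univ.filter (fun v : Fin n => (parGraph par).connectedComponentMk v = c),
      (((Finset.univ.filter fun w => (parGraph par).connectedComponentMk w =
        (parGraph par).connectedComponentMk v).card : ℕ) : ℝ) =
      ((Finset.univ.filter fun w => (parGraph par).connectedComponentMk w = c).card : ℝ) := by
    intro v hv
    rw [(Finset.mem_filter.mp hv).2]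
  rw [Finset.sum_congr rfl h2, Finset.sum_const, nsmul_eq_mul, sq]

include hlt hrt1 hrt2 hrt3 hiso in
lemma shape_degree : ((shape (parGraph par)).map (· - 1)).sum = Nat.card {v : Fin n // par v ≠ v} := by
  classical
  let _ : Fintype (parGraph par).ConnectedComponent := Fintype.ofFinite _
  have h1 := shape_map_sum par rt hlt hrt1 hrt2 hiso (g := (· - 1))
  have h2 := shape_sum par rt hlt hrt1 hrt2 hiso
  have h3 := shape_map_sum par rt hlt hrt1 hrt2 hiso (g := id)
  rw [Multiset.map_id, h2] at h3
  have h4 : ∑ c : (parGraph par).ConnectedComponent, (Nat.card c.supp - 1) +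
      Fintype.card (parGraph par).ConnectedComponent = n := by
    conv_rhs => rw [h3]
    rw [← Finset.card_univ, Finset.card_eq_sum_ones, ← Finset.sum_add_distrib]
    refine Finset.sum_congr rfl fun c _ => ?_
    have := two_le_supp par rt hlt hrt1 hrt2 hiso c
    simp only [id]
    omega
  have h5 : Fintype.card (parGraph par).ConnectedComponent = Fintype.card {v : Fin n // par v = v} := by
    symm
    apply Fintype.card_of_bijective (f := fun v : {v : Fin n // par v = v} =>
      (parGraph par).connectedComponentMk v.1)
    constructor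
    · intro v w hvw
      simp only at hvw
      rw [SimpleGraph.ConnectedComponent.eq, reachable_iff par rt hlt hrt1 hrt2, hrt2 _ v.2,
        hrt2 _ w.2] at hvw
      exact Subtype.ext hvw
    · intro c
      induction c using SimpleGraph.ConnectedComponent.ind with
      | h v =>
        refine ⟨⟨rt v, hrt3 v⟩, ?_⟩
        simp only
        rw [SimpleGraph.ConnectedComponent.eq]
        exact (reachable_rt par rt hlt hrt1 hrt2 v).symm
  have h6 : Fintype.card {v : Fin n // par v ≠ v} = n - Fintype.card {v : Fin n // par v = v} := by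
    have := Fintype.card_subtype_compl (fun v : Fin n => par v = v)
    rw [Fintype.card_fin] at this
    exact this
  rw [h1, Nat.card_eq_fintype_card, h6]
  change ∑ c : (parGraph par).ConnectedComponent, (Nat.card c.supp - 1) = _
  omega

end Sizes

end Pool.Agent.Helper89.RMax
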