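import Mathlib
import Pool.Agent.Helper89.RMax.Blocks
import Pool.Agent.Helper89.RMax.Forest

/-!
# The restriction of the class of a torus family is not zero
-/

set_option autoImplicit false

noncomputable section

namespace Pool.Agent.Helper89.RMax

/-- relabelling -/
def Sys.map {V W : Type} {R : ℝ} (S : Sys V R) (f : V ≃ W) : Sys W R where
  par w := f (S.par (f.symm w))
  rt w := f (S.rt (f.symm w))
  rank w := S.rank (f.symm w)
  pos y w := S.pos (fun v => y (f v)) (f.symm w)
  rank_par w hw := by
    rw [f.symm_apply_apply]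
    refine S.rank_par _ (fun h => hw ?_)
    rw [h, f.apply_symm_apply]
  rt_par w := by
    rw [f.symm_apply_apply, S.rt_par]
  rt_of_root w hw := by
    have h : S.par (f.symm w) = f.symm w := by
      rw [Equiv.eq_symm_apply]
      exact hw
    rw [S.rt_of_root _ h, f.apply_symm_apply]
  par_rt w := by
    rw [f.symm_apply_apply, S.par_rt]
  cont := by
    apply continuous_pi
    intro w
    refine (continuous_apply (f.symm w)).comp (S.cont.comp ?_)
    exact continuous_pi fun v => continuous_apply _
  periodic y y' h := by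
    funext w
    rw [S.periodic (fun v => y (f v)) (fun v => y' (f v)) (fun v => h (f v))]
  indep y y' h := by
    funext w
    rw [S.indep (fun v => y (f v)) (fun v => y' (f v)) (fun v hv => h (f v) ?_)]
    rw [f.symm_apply_apply]
    exact fun h => hv (f.injective h)
  norm_le y w := S.norm_le _ _
  sep y v w hvw := S.sep _ _ _ (fun h => hvw (f.symm.injective h))
  deg w hw := by
    have h : S.par (f.symm w) ≠ f.symm w := by
      intro h
      apply hw
      rw [h, f.apply_symm_apply]
    obtain ⟨c, hc⟩ := S.deg _ h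
    refine ⟨c, fun y => ?_⟩
    have := hc (fun v => y (f v))
    rw [f.apply_symm_apply] at this
    rw [f.symm_apply_apply]
    exact this

lemma Sys.map_wt {V W : Type} {R : ℝ} (S : Sys V R) (f : V ≃ W) [Fintype V] [Fintype W] :
    (S.map f).wt = S.wt := by
  classical
  rw [Sys.wt, Sys.wt, ← Equiv.sum_comp f]
  refine Finset.sum_congr rfl fun v _ => ?_
  rw [← Equiv.sum_comp f]
  refine Finset.sum_congr rfl fun w _ => ?_
  simp [Sys.map]

lemma Sys.map_noIso {V W : Type} {R : ℝ} (S : Sys V R) (f : V ≃ W) (h : S.NoIso) :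
    (S.map f).NoIso := by
  intro w
  obtain ⟨v, hv1, hv2⟩ := h (f.symm w)
  refine ⟨f v, ?_, ?_⟩
  · rintro rfl
    exact hv1 (f.symm_apply_apply v).symm
  · simp only [Sys.map, f.symm_apply_apply, hv2]

/-- a labelling compatible with the rank -/
lemma exists_labelling {V : Type} [Fintype V] (rank : V → ℕ) :
    ∃ f : V ≃ Fin (Fintype.card V), ∀ u v, rank u < rank v → f u < f v := by
  classical
  let g : V → ℕ ×ₗ Fin (Fintype.card V) := fun v => toLex (rank v, Fintype.equivFin V v)
  have hg : Function.Injective g := by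
    intro u v huv
    have h1 := congrArg (fun z => (ofLex z).2) huv
    exact (Fintype.equivFin V).injective h1
  let _ : LinearOrder V := LinearOrder.lift' g hg
  let o := Fintype.orderIsoFinOfCardEq V (rfl : Fintype.card V = Fintype.card V)
  refine ⟨o.symm.toEquiv, fun u v huv => ?_⟩
  have h1 : u < v := by
    change g u < g v
    rw [Prod.Lex.toLex_lt_toLex]
    exact Or.inl huv
  exact o.symm.lt_iff_lt.mpr h1

section NonVanishing

variable {n : ℕ} {R : ℝ} (S : Sys (Fin n) R)

/-- extension by zero of angles indexed by the non-roots -/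
def extend {d : ℕ} (e0 : Fin d ≃ {v : Fin n // S.par v ≠ v}) (y : Fin d → ℝ) : Fin n → ℝ := by
  classical
  exact fun v => if h : S.par v ≠ v then y (e0.symm ⟨v, h⟩) else 0

lemma extend_apply {d : ℕ} (e0 : Fin d ≃ {v : Fin n // S.par v ≠ v}) (y : Fin d → ℝ) (i : Fin d) :
    extend S e0 y (e0 i).1 = y i := by
  classical
  rw [extend, dif_pos (e0 i).2]
  simp

lemma continuous_extend {d : ℕ} (e0 : Fin d ≃ {v : Fin n // S.par v ≠ v}) :
    Continuous (extend S e0) := by
  classical
  apply continuous_pi
  intro v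
  unfold extend
  by_cases h : S.par v ≠ v
  · simp only [dif_pos h]
    exact continuous_apply _
  · simp only [dif_neg h]
    exact continuous_const

lemma extend_periodic {d : ℕ} (e0 : Fin d ≃ {v : Fin n // S.par v ≠ v}) (y : Fin d → ℝ) (j : Fin d) :
    S.pos (extend S e0 (y + Pi.single j 1)) = S.pos (extend S e0 y) := by
  classical
  apply S.periodic
  intro w
  unfold extend
  by_cases h : S.par w ≠ w
  · simp only [dif_pos h, Pi.add_apply]
    by_cases hj : e0.symm ⟨w, h⟩ = j
    · right
      rw [hj, Pi.single_eq_same]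
    · left
      rw [Pi.single_eq_of_ne hj, add_zero]
  · left
    simp only [dif_neg h]

/-- the torus in the configuration space -/
def torus (hR : 0 < R) {d : ℕ} (e0 : Fin d ≃ {v : Fin n // S.par v ≠ v}) :
    C(Fin d → ℝ, DiskConf n (1 / R)) where
  toFun y := ⟨fun a => (1 / R : ℝ) * S.pos (extend S e0 y) a, by
    intro a
    rw [norm_mul, Complex.norm_real, Real.norm_of_nonneg (by positivity)]
    have h1 := S.norm_le (extend S e0 y) a
    have h2 : (1 : ℝ) - 1 / R = 1 / R * (R - 1) := by
      field_simp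
    rw [h2]
    exact mul_le_mul_of_nonneg_left h1 (by positivity), by
    intro a b hab
    have h1 := S.sep (extend S e0 y) a b hab
    rw [← mul_sub, norm_mul, Complex.norm_real, Real.norm_of_nonneg (by positivity), mul_comm]
    exact mul_le_mul_of_nonneg_left h1 (by positivity)⟩
  continuous_toFun := by
    apply Continuous.subtype_mk
    apply continuous_pi
    intro a
    exact continuous_const.mul ((continuous_apply a).comp (S.cont.comp (continuous_extend S e0)))

lemma torus_apply (hR : 0 < R) {d : ℕ} (e0 : Fin d ≃ {v : Fin n // S.par v ≠ v}) (y : Fin d → ℝ)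
    (a : Fin n) : (torus S hR e0 y).1 a = (1 / R : ℝ) * S.pos (extend S e0 y) a := rfl

/-- **Non-vanishing.** -/
theorem pull_ne_zero (hR : 0 < R) (hr : 0 < 1 / R) (hlt : ∀ v, S.par v ≠ v → S.par v < v) {d : ℕ}
    (e0 : Fin d ≃ {v : Fin n // S.par v ≠ v}) :
    pull (incl n hr) d (cupProd fun i => omega
      (⟨(S.par (e0 i).1, (e0 i).1), hlt _ (e0 i).2⟩ : Edge n)) ≠ 0 := by
  intro h
  rw [cupProd, pull, Submodule.mapQ_apply, Submodule.Quotient.mk_eq_zero] at h
  refine prodCoch_not_mem_cobs (torus S hR e0) ?_ (fun i => angle ((dir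
    (⟨(S.par (e0 i).1, (e0 i).1), hlt _ (e0 i).2⟩ : Edge n)).comp (incl n hr))) ?_ h
  · intro y j
    apply Subtype.ext
    funext a
    rw [torus_apply, torus_apply, extend_periodic]
  · intro i j σ y hσ
    set v := (e0 i).1 with hv
    obtain ⟨c, hc⟩ := S.deg v (e0 i).2
    let γ : Simp 1 → ℂ := fun t => (σ t).1 v - (σ t).1 (S.par v)
    have hγ : Continuous γ := by
      have h1 : ∀ a : Fin n, Continuous fun t => (σ t).1 a := fun a =>
        (continuous_apply a).comp (continuous_subtype_val.comp σ.continuous)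
      exact (h1 v).sub (h1 (S.par v))
    have hγ0 : ∀ t, γ t ≠ 0 := by
      intro t h0
      have h1 := (σ t).2.2 v (S.par v) (e0 i).2.symm
      have h2 : (σ t).1 v - (σ t).1 (S.par v) = 0 := h0
      rw [h2, norm_zero] at h1
      linarith
    have hR0 : ‖((1 / R : ℝ) : ℂ)‖ = 1 / R := by
      rw [Complex.norm_real, Real.norm_of_nonneg (by positivity)]
    have key := turn_unit γ hγ hγ0 (by
        simp only [γ]
        rw [hσ, hσ]
        have e1 : (vtx 1 1 : Simp 1) 1 = 1 := by
          simp [vtx]
        have e0' : (vtx 1 0 : Simp 1) 1 = 0 := by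
          simp [vtx]
        rw [e1, e0', Pi.single_zero, add_zero]
        rw [torus_apply, torus_apply, torus_apply, torus_apply, extend_periodic])
      ((1 / R : ℝ) * c) (y i) (if i = j then 1 else 0) (by
        intro t
        simp only [γ]
        rw [hσ, torus_apply, torus_apply]
        have h1 := hc (extend S e0 (y + Pi.single j (t 1)))
        have h2 : extend S e0 (y + Pi.single j (t 1)) v = y i + (if i = j then 1 else 0 : ℤ) * t 1 := by
          rw [hv, extend_apply, Pi.add_apply, Pi.single_apply]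
          split_ifs <;> simp
        rw [h2] at h1
        set P := S.pos (extend S e0 (y + Pi.single j (t 1)))
        rw [show ((1 / R : ℝ) : ℂ) * P v - (1 / R : ℝ) * P (S.par v) -
          ex (y i + (if i = j then 1 else 0 : ℤ) * t 1) * ((1 / R : ℝ) * c) =
          (1 / R : ℝ) * (P v - P (S.par v) - ex (y i + (if i = j then 1 else 0 : ℤ) * t 1) * c) by ring,
          norm_mul, norm_mul, hR0]
        exact mul_lt_mul_of_pos_left h1 hr)
    have h3 : ((if i = j then 1 else 0 : ℤ) : ℝ) = if i = j then 1 else 0 := by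
      split_ifs <;> simp
    rw [h3] at key
    exact key

end NonVanishing

/-- if the restriction is nonzero, the configuration space is not empty -/
lemma nonempty_of_pull_ne {n d : ℕ} {r : ℝ} (hr : 0 < r) (z : Coho (Conf n) d)
    (h : pull (incl n hr) d z ≠ 0) : Nonempty (DiskConf n r) := by
  by_contra hcon
  rw [not_nonempty_iff] at hcon
  apply h
  have h1 : IsEmpty C(Simp d, DiskConf n r) := ⟨fun σ => hcon.false (σ (vtx d 0))⟩
  have h2 : Subsingleton (Coch (DiskConf n r) d) := inferInstance
  have h3 : Subsingleton (cocs (DiskConf n r) d) := inferInstance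
  have h4 : Subsingleton (Coho (DiskConf n r) d) :=
    (Submodule.mkQ_surjective ((cobs (DiskConf n r) d).comap (cocs (DiskConf n r) d).subtype)).subsingleton
  exact Subsingleton.elim _ _

lemma bddAbove_goodRadii (m : Multiset ℕ) (hm : 0 < m.sum) : BddAbove (goodRadii m) := by
  refine ⟨1, ?_⟩
  rintro r ⟨hr, z, _, hz⟩
  obtain ⟨x⟩ := nonempty_of_pull_ne hr z hz
  have := x.2.1 ⟨0, hm⟩
  have h2 := norm_nonneg (x.1 ⟨0, hm⟩)
  linarith

lemma mem_goodRadii (m : Multiset ℕ) (n d : ℕ) (hn : m.sum = n) (hd : (m.map (· - 1)).sum = d)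
    {r : ℝ} (hr : 0 < r) (z : Coho (Conf n) d) (hz : z ∈ shapeSpace m n d)
    (hne : pull (incl n hr) d z ≠ 0) : r ∈ goodRadii m := by
  subst hn
  subst hd
  exact ⟨hr, z, hz, hne⟩

/-- a torus family gives a radius where the restriction is not zero -/
theorem le_rmax {n : ℕ} {R : ℝ} (S : Sys (Fin n) R) (hR : 0 < R) (hn : 0 < n)
    (hlt : ∀ v, S.par v ≠ v → S.par v < v) (hiso : S.NoIso) :
    1 / R ≤ rmax (shape (parGraph S.par)) := by
  have hr : 0 < 1 / R := by positivity
  have hsum := shape_sum S.par S.rt hlt S.rt_par S.rt_of_root hiso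
  have hdeg := shape_degree S.par S.rt hlt S.rt_par S.rt_of_root S.par_rt hiso
  have e0 : Fin (Nat.card {v : Fin n // S.par v ≠ v}) ≃ {v : Fin n // S.par v ≠ v} :=
    (Finite.equivFin _).symm
  refine le_csSup (bddAbove_goodRadii _ (by rw [hsum]; exact hn)) ?_
  refine mem_goodRadii _ n _ hsum hdeg hr _ ?_ (pull_ne_zero S hR hr hlt e0)
  refine Submodule.subset_span ⟨parGraph S.par, isOrderedForest_parGraph S.par hlt, rfl, _, ?_, ?_, rfl⟩
  · intro i j hij
    apply e0.injective
    apply Subtype.ext
    exact congrArg (fun p : Edge n => p.1.2) hij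
  · intro p
    constructor
    · rintro ⟨i, rfl⟩
      rw [parGraph_adj]
      exact ⟨(e0 i).2, Or.inl rfl⟩
    · intro h
      have h1 := par_of_adj_lt S.par hlt h p.2
      have h2 : S.par p.1.2 ≠ p.1.2 := by
        rw [h1]
        exact p.2.ne
      refine ⟨e0.symm ⟨p.1.2, h2⟩, ?_⟩
      apply Subtype.ext
      apply Prod.ext
      · simp only [Equiv.apply_symm_apply]
        exact h1
      · simp only [Equiv.apply_symm_apply]

/-- **The answer to Q1 is no.** For every constant `C` there is a finite multiset `m` of integers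
`≥ 2` with `r_max(m) > C / √(∑ m_i²)`. -/
theorem main (C : ℝ) : ∃ m : Multiset ℕ, m ≠ 0 ∧ (∀ a ∈ m, 2 ≤ a) ∧
    C / Real.sqrt ((m.map (fun a : ℕ => (a : ℝ) ^ 2)).sum) < rmax m := by
  obtain ⟨N, hN⟩ := exists_nat_gt (4 * (|C| ^ 2))
  obtain ⟨K, hK⟩ := good_large N
  obtain ⟨b, hb⟩ := hK K le_rfl
  obtain ⟨f, hf⟩ := exists_labelling b.S.rank
  set S := b.S.map f with hS
  have hn : 0 < Fintype.card b.V := Fintype.card_pos_iff.mpr ⟨b.ρ⟩
  have hlt : ∀ v, S.par v ≠ v → S.par v < v := by
    intro v hv
    have h1 := hf _ _ (b.S.rank_par (f.symm v) (fun h => hv (by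
      change f (b.S.par (f.symm v)) = v
      rw [h, f.apply_symm_apply])))
    rw [f.apply_symm_apply] at h1
    exact h1
  have hiso : S.NoIso := b.S.map_noIso f b.noIso
  have hR : (0 : ℝ) < 2 ^ K := by positivity
  have h1 := le_rmax S hR hn hlt hiso
  have hwt : ((shape (parGraph S.par)).map (fun a : ℕ => (a : ℝ) ^ 2)).sum = (b.S.wt : ℝ) := by
    rw [shape_sum_sq S.par S.rt hlt S.rt_par S.rt_of_root hiso, ← b.S.map_wt f]
    congr 1
    rw [Sys.wt]
    refine Finset.sum_congr rfl fun v _ => Finset.sum_congr rfl fun w _ => ?_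
    by_cases h : S.rt v = S.rt w
    · rw [if_pos h, if_pos h]
    · rw [if_neg h, if_neg h]
  have hsum := shape_sum S.par S.rt hlt S.rt_par S.rt_of_root hiso
  refine ⟨shape (parGraph S.par), ?_, shape_ge S.par S.rt hlt S.rt_par S.rt_of_root hiso, ?_⟩
  · intro h0
    rw [h0, Multiset.sum_zero] at hsum
    omega
  · refine lt_of_lt_of_le ?_ h1
    rw [hwt]
    have h2 : |C| ^ 2 * 4 ^ K < (b.S.wt : ℝ) := by
      refine lt_of_lt_of_le ?_ hb
      apply mul_lt_mul_of_pos_right _ (by positivity)
      linarith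
    have h3 : |C| * 2 ^ K < Real.sqrt (b.S.wt : ℝ) := by
      apply Real.lt_sqrt_of_sq_lt
      calc (|C| * 2 ^ K) ^ 2 = |C| ^ 2 * 4 ^ K := by
            rw [mul_pow, ← pow_mul, mul_comm K 2, pow_mul]
            norm_num
        _ < _ := h2
    have h4 : 0 < Real.sqrt (b.S.wt : ℝ) := lt_of_le_of_lt (by positivity) h3
    calc C / Real.sqrt (b.S.wt : ℝ) ≤ |C| / Real.sqrt (b.S.wt : ℝ) :=
          div_le_div_of_nonneg_right (le_abs_self C) h4.le
      _ < 1 / 2 ^ K := by
        rw [div_lt_div_iff₀ h4 hR, one_mul]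
        exact h3

end Pool.Agent.Helper89.RMax
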