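import Mathlib
import Pool.Agent.Helper89.RMax.Final

/-!
# Definitions for the statement: singular cochains, disk configurations, `r_max`

Cohomology is real singular cohomology, written at the level of cochains: a class in `Hᵈ(X; ℝ)` is
the class of a singular cocycle, it is zero if and only if the cocycle is a coboundary, and the
restriction of the class of `c` along `f` is the class of the cocycle `pullCoch f c`.

In the proof (`Pool.Agent.Helper89.RMax`, files `Coho` and `Defs`) cohomology is the quotient of the
cocycles by the coboundaries; that the two descriptions of `r_max` agree is `goodRadii_eq` in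
`Pool.Agent.Helper89.RMax.Bridge`.
-/

set_option autoImplicit false

noncomputable section

namespace Pool.Agent.Helper89.DiskRadius

/-! ### Real singular cochains -/

/-- The standard topological `n`-simplex. -/
def Simp (n : ℕ) : Type := stdSimplex ℝ (Fin (n + 1))

/-- The subspace topology. -/
instance topSimp (n : ℕ) : TopologicalSpace (Simp n) := instTopologicalSpaceSubtype

/-- The map of standard simplices induced by a map of vertices. -/
def smap {k n : ℕ} (f : Fin (k + 1) → Fin (n + 1)) : C(Simp k, Simp n) where
  toFun := stdSimplex.map f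
  continuous_toFun := stdSimplex.continuous_map f

section Cochains

variable {X Y : Type} [TopologicalSpace X] [TopologicalSpace Y]

/-- Real singular `n`-cochains of `X`: real functions on the singular `n`-simplices. -/
abbrev Coch (X : Type) [TopologicalSpace X] (n : ℕ) : Type := C(Simp n, X) → ℝ

/-- The singular coboundary of a cochain: the alternating sum over the faces. -/
def dif {n : ℕ} (c : Coch X n) : Coch X (n + 1) :=
  fun σ => ∑ i : Fin (n + 2), (-1 : ℝ) ^ (i : ℕ) * c (σ.comp (smap i.succAbove))

/-- The `n`-cochain `c` is a coboundary (in degree `0`: it is zero). For a cocycle `c`: its class in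
`Hⁿ(X; ℝ)` is zero. -/
def IsCoboundary {n : ℕ} (c : Coch X n) : Prop :=
  match n, c with
  | 0, c => c = 0
  | m + 1, c => ∃ g : Coch X m, dif g = c

/-- The pullback of a cochain along a continuous map. -/
def pullCoch (f : C(X, Y)) {n : ℕ} (c : Coch Y n) : Coch X n := fun σ => c (f.comp σ)

/-- The cup product of `d` cochains of degree one: the value on a singular `d`-simplex is the
product over `i` of the value of the `i`-th cochain on the edge from vertex `i` to vertex
`i + 1`. -/
def prodCoch {d : ℕ} (θ : Fin d → Coch X 1) : Coch X d :=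
  fun σ => ∏ i : Fin d, θ i (σ.comp (smap ![i.castSucc, i.succ]))

/-- The vertices of the standard 1-simplex. -/
def vtx (j : Fin 2) : Simp 1 := stdSimplex.vertex j

/-- A path in the circle has a continuous argument. -/
theorem exists_lift (γ : C(Simp 1, Circle)) :
    ∃ L : C(Simp 1, ℝ), ∀ t, Circle.exp (L t) = γ t :=
  @RMax.exists_lift (RMax.Simp 1) _ (RMax.simp_contractible 1) γ

/-- The total change of the angle, in full turns, along a path `γ` in the unit circle (parametrised
by the standard 1-simplex): `(L(v₁) - L(v₀)) / 2π` for any continuous real function `L` with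
`exp(i L(t)) = γ(t)` for all `t`; it does not depend on `L`. -/
def turn (γ : C(Simp 1, Circle)) : ℝ :=
  (Classical.choose (exists_lift γ) (vtx 1) - Classical.choose (exists_lift γ) (vtx 0)) /
    (2 * Real.pi)

/-- The pullback of the normalised angle class `dθ/2π` of the circle under a map `f` to the circle,
as a singular 1-cochain (it is a cocycle): its value on a path is the total change of the angle
of `f` in full turns. -/
def angle (f : C(X, Circle)) : Coch X 1 := fun σ => turn (f.comp σ)

end Cochains

/-! ### Configurations of disks -/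

/-- `Conf n`: the configurations of `n` distinct points in the open unit disk. -/
def Conf (n : ℕ) : Type := {x : Fin n → ℂ // (∀ a, ‖x a‖ < 1) ∧ ∀ a b, a ≠ b → x a ≠ x b}

/-- The subspace topology. -/
instance topConf (n : ℕ) : TopologicalSpace (Conf n) := instTopologicalSpaceSubtype

/-- `DiskConf n r`: the centres of `n` non-overlapping disks of radius `r` in the closed unit
disk. -/
def DiskConf (n : ℕ) (r : ℝ) : Type :=
  {x : Fin n → ℂ // (∀ a, ‖x a‖ ≤ 1 - r) ∧ ∀ a b, a ≠ b → 2 * r ≤ ‖x a - x b‖}

/-- The subspace topology. -/
instance topDiskConf (n : ℕ) (r : ℝ) : TopologicalSpace (DiskConf n r) :=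
  instTopologicalSpaceSubtype

theorem diskConf_sub {n : ℕ} {r : ℝ} (hr : 0 < r) (x : DiskConf n r) :
    (∀ a, ‖x.1 a‖ < 1) ∧ ∀ a b, a ≠ b → x.1 a ≠ x.1 b :=
  (RMax.incl n hr x).2

theorem continuous_incl {n : ℕ} {r : ℝ} (hr : 0 < r) :
    Continuous fun x : DiskConf n r => (⟨x.1, diskConf_sub hr x⟩ : Conf n) :=
  (RMax.incl n hr).continuous

/-- The inclusion of `DiskConf n r` in `Conf n`, for `r > 0`. -/
def incl (n : ℕ) {r : ℝ} (hr : 0 < r) : C(DiskConf n r, Conf n) where
  toFun x := ⟨x.1, diskConf_sub hr x⟩
  continuous_toFun := continuous_incl hr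

/-- Pairs `a < b` of labels. -/
def Edge (n : ℕ) : Type := {e : Fin n × Fin n // e.1 < e.2}

theorem unit_mem (z : ℂ) (hz : z ≠ 0) : z / (‖z‖ : ℂ) ∈ Submonoid.unitSphere ℂ :=
  (RMax.unit z hz).2

/-- The direction `z / |z|` of a nonzero complex number, as a point of the unit circle. -/
def unit (z : ℂ) (hz : z ≠ 0) : Circle := ⟨z / (‖z‖ : ℂ), unit_mem z hz⟩

theorem diff_ne {n : ℕ} (e : Edge n) (x : Conf n) : x.1 e.1.2 - x.1 e.1.1 ≠ 0 :=
  sub_ne_zero.mpr (x.2.2 _ _ e.2.ne')

theorem continuous_dir {n : ℕ} (e : Edge n) :
    Continuous fun x : Conf n => unit (x.1 e.1.2 - x.1 e.1.1) (diff_ne e x) :=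
  (RMax.dir e).continuous

/-- The map `x ↦ (x_b - x_a) / |x_b - x_a|` of `Conf n` to the unit circle, for `a < b`. -/
def dir {n : ℕ} (e : Edge n) : C(Conf n, Circle) where
  toFun x := unit (x.1 e.1.2 - x.1 e.1.1) (diff_ne e x)
  continuous_toFun := continuous_dir e

/-- A cocycle in the class `ω_{ab}`, for `a < b`: the pullback of the normalised angle class of the
circle under `dir`. -/
def omega {n : ℕ} (e : Edge n) : Coch (Conf n) 1 := angle (dir e)

/-! ### Ordered forests and `r_max` -/

/-- An ordered forest: a forest on `{0, …, n-1}` in which every vertex has at most one neighbour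
with a smaller label. -/
def IsOrderedForest {n : ℕ} (G : SimpleGraph (Fin n)) : Prop :=
  G.IsAcyclic ∧ ∀ a a' b, G.Adj a b → G.Adj a' b → a < b → a' < b → a = a'

/-- The shape of a graph: the multiset of the sizes of its components with at least two vertices. -/
def shape {n : ℕ} (G : SimpleGraph (Fin n)) : Multiset ℕ :=
  ((@Finset.univ G.ConnectedComponent (Fintype.ofFinite _)).val.map
    (fun c => Nat.card c.supp)).filter (2 ≤ ·)

/-- `c` is a cocycle in the class `ω_G` of degree `d` (up to sign): the product, over the edges
`a < b` of the graph `G` listed without repetition, of the `ω_{ab}`. -/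
def IsOmega {n d : ℕ} (G : SimpleGraph (Fin n)) (c : Coch (Conf n) d) : Prop :=
  ∃ e : Fin d → Edge n, Function.Injective e ∧
    (∀ p : Edge n, (∃ i, e i = p) ↔ G.Adj p.1.1 p.1.2) ∧ c = prodCoch (fun i => omega (e i))

/-- The real span of the cocycles in the classes `ω_G`, where `G` runs over the ordered forests of
shape `m`. Their classes form the space `H^m(Conf_n)`, in degree `d`. -/
def shapeSpace (m : Multiset ℕ) (n d : ℕ) : Submodule ℝ (Coch (Conf n) d) :=
  Submodule.span ℝ {c | ∃ G : SimpleGraph (Fin n), IsOrderedForest G ∧ shape G = m ∧ IsOmega G c}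

/-- The restriction map `H^m(Conf_n) → H^d(Conf_{n,r})` is not zero: for some cocycle `c` whose
class is in `H^m(Conf_n)`, the pullback of `c` to `Conf_{n,r}` is not a coboundary. -/
def RestrictionNonzero (m : Multiset ℕ) (n d : ℕ) {r : ℝ} (hr : 0 < r) : Prop :=
  ∃ c ∈ shapeSpace m n d, ¬ IsCoboundary (pullCoch (incl n hr) c)

/-- The radii `r > 0` for which the restriction map `H^m(Conf_n) → H^*(Conf_{n,r})` is not zero,
where `n` is the sum of the `m_i`. The degree of the classes `ω_G` with `G` of shape `m` is the sum
of the `m_i - 1`. -/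
def goodRadii (m : Multiset ℕ) : Set ℝ :=
  {r : ℝ | ∃ hr : 0 < r, RestrictionNonzero m m.sum (m.map (· - 1)).sum hr}

/-- The radius `r_max(m)`. -/
def rmax (m : Multiset ℕ) : ℝ := sSup (goodRadii m)

end Pool.Agent.Helper89.DiskRadius
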