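import Mathlib
import Pool.Agent.Helper89.RMax.Statement

/-!
# The two descriptions of `r_max` agree
-/

set_option autoImplicit false

noncomputable section

namespace Pool.Agent.Helper89.DiskRadius

lemma isCoboundary_iff {X : Type} [TopologicalSpace X] {n : ℕ} (c : Coch X n) :
    IsCoboundary c ↔ c ∈ RMax.cobs X n := by
  cases n with
  | zero => exact Iff.rfl
  | succ n => exact Iff.rfl

lemma isOmega_iff {n d : ℕ} (G : SimpleGraph (Fin n)) (c : Coch (Conf n) d) :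
    IsOmega G c ↔ ∃ e : Fin d → RMax.Edge n, Function.Injective e ∧
      (∀ p : RMax.Edge n, (∃ i, e i = p) ↔ G.Adj p.1.1 p.1.2) ∧
      c = RMax.prodCoch (fun i => (RMax.omega (e i)).1) := Iff.rfl

lemma span_to (m : Multiset ℕ) (n d : ℕ) (c : Coch (Conf n) d) (hc : c ∈ shapeSpace m n d) :
    ∃ h : c ∈ RMax.cocs (RMax.Conf n) d,
      (Submodule.Quotient.mk ⟨c, h⟩ : RMax.Coho (RMax.Conf n) d) ∈ RMax.shapeSpace m n d := by
  induction hc using Submodule.span_induction with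
  | mem c hc =>
    obtain ⟨G, hG, hs, hO⟩ := hc
    obtain ⟨e, he1, he2, rfl⟩ := (isOmega_iff G c).mp hO
    exact ⟨RMax.dif_prodCoch _ (fun i => (RMax.omega (e i)).2),
      Submodule.subset_span ⟨G, hG, hs, e, he1, he2, rfl⟩⟩
  | zero => exact ⟨Submodule.zero_mem _, Submodule.zero_mem _⟩
  | add c c' _ _ h h' =>
    obtain ⟨h1, h2⟩ := h
    obtain ⟨h3, h4⟩ := h'
    exact ⟨Submodule.add_mem _ h1 h3, Submodule.add_mem _ h2 h4⟩
  | smul a c _ h =>
    obtain ⟨h1, h2⟩ := h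
    exact ⟨Submodule.smul_mem _ a h1, Submodule.smul_mem _ a h2⟩

lemma span_from (m : Multiset ℕ) (n d : ℕ) (z : RMax.Coho (RMax.Conf n) d)
    (hz : z ∈ RMax.shapeSpace m n d) : ∃ c ∈ shapeSpace m n d,
      ∃ h : c ∈ RMax.cocs (RMax.Conf n) d, Submodule.Quotient.mk ⟨c, h⟩ = z := by
  induction hz using Submodule.span_induction with
  | mem z hz =>
    obtain ⟨G, hG, hs, e, he1, he2, rfl⟩ := hz
    exact ⟨RMax.prodCoch (fun i => (RMax.omega (e i)).1),
      Submodule.subset_span ⟨G, hG, hs, (isOmega_iff G _).mpr ⟨e, he1, he2, rfl⟩⟩,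
      RMax.dif_prodCoch _ (fun i => (RMax.omega (e i)).2), rfl⟩
  | zero => exact ⟨0, Submodule.zero_mem _, Submodule.zero_mem _, rfl⟩
  | add z z' _ _ h h' =>
    obtain ⟨c, h1, h2, rfl⟩ := h
    obtain ⟨c', h3, h4, rfl⟩ := h'
    exact ⟨c + c', Submodule.add_mem _ h1 h3, Submodule.add_mem _ h2 h4, rfl⟩
  | smul a z _ h =>
    obtain ⟨c, h1, h2, rfl⟩ := h
    exact ⟨a • c, Submodule.smul_mem _ a h1, Submodule.smul_mem _ a h2, rfl⟩

lemma pull_eq_zero_iff {n d : ℕ} {r : ℝ} (hr : 0 < r) (c : Coch (Conf n) d)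
    (h : c ∈ RMax.cocs (RMax.Conf n) d) :
    RMax.pull (RMax.incl n hr) d (Submodule.Quotient.mk ⟨c, h⟩) = 0 ↔
      IsCoboundary (pullCoch (incl n hr) c) := by
  rw [RMax.pull, Submodule.mapQ_apply, Submodule.Quotient.mk_eq_zero, isCoboundary_iff]
  exact Iff.rfl

/-- The radii defined with cochains are the radii defined with cohomology classes. -/
theorem goodRadii_eq (m : Multiset ℕ) : goodRadii m = RMax.goodRadii m := by
  ext r
  constructor
  · rintro ⟨hr, c, hc, hne⟩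
    obtain ⟨h, hz⟩ := span_to m _ _ c hc
    exact ⟨hr, _, hz, fun h0 => hne ((pull_eq_zero_iff hr c h).mp h0)⟩
  · rintro ⟨hr, z, hz, hne⟩
    obtain ⟨c, hc, h, rfl⟩ := span_from m _ _ z hz
    exact ⟨hr, c, hc, fun h0 => hne ((pull_eq_zero_iff hr c h).mpr h0)⟩

theorem rmax_eq (m : Multiset ℕ) : rmax m = RMax.rmax m := by
  rw [rmax, RMax.rmax, goodRadii_eq]

end Pool.Agent.Helper89.DiskRadius
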